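import Pool.Agent.K4H56.IF.Fin3

/-!
Two orders divisible by a fixed number `m ≥ 3`.
-/

set_option autoImplicit false

open IsDedekindDomain NumberField Polynomial

namespace Run7.h197.ST

open Pool.Agent.Y673.Loc Pool.Agent.Y673.Loc.ZV Pool.Agent.K4H56.IF

section
variable {L : Type} [Field L] [NumberField L]

/-- **Two `m`-th powers.** -/
theorem two_pow (S : Set (HeightOneSpectrum (𝓞 L))) (hSf : S.Finite) {b₁ b₂ ζ : L}
    (h12 : b₁ ≠ b₂) {m : ℕ} (hm : 1 ≤ m) (hζ : ζ ^ m = 1) (hζ1 : ζ ≠ 1) (hζ2 : ζ ^ 2 ≠ 1) :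
    {x : L | (∀ v ∉ S, (adv L v).G 0 x) ∧
      ∃ y₁ y₂ : L, x - b₁ = y₁ ^ m ∧ x - b₂ = y₂ ^ m}.Finite := by
  classical
  have hζ0 : ζ ≠ 0 := by
    rintro rfl
    rw [zero_pow (by omega)] at hζ
    exact zero_ne_one hζ
  have hζp : 1 + ζ ≠ 0 := by
    intro h
    apply hζ2
    linear_combination (ζ - 1) * h
  have hζm : ζ - 1 ≠ 0 := sub_ne_zero.2 hζ1
  set S' : Set (HeightOneSpectrum (𝓞 L)) := S ∪ {v | (adv L v).v (b₂ - b₁) ≠ 0} ∪
    {v | ¬ (adv L v).G 0 b₁} ∪ {v | ¬ (adv L v).G 0 b₂} ∪ {v | (adv L v).v (1 + ζ) ≠ 0} with hS'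
  have k21 : b₂ - b₁ ≠ 0 := sub_ne_zero.2 h12.symm
  have hS'f : S'.Finite :=
    ((((hSf.union (supp_finite k21)).union (pole_finite b₁)).union (pole_finite b₂)).union
      (supp_finite hζp))
  have hU := su (L := L) S' hS'f
  set U := {x : L | x ≠ 0 ∧ 1 - x ≠ 0 ∧ ∀ v ∉ S', (adv L v).v x = 0 ∧ (adv L v).v (1 - x) = 0}
    with hUd
  -- u = ζ (y₁ - y₂) / ((1 + ζ) (y₁ - ζ y₂))
  refine (hU.image fun u : L => b₂ + ((1 - ζ / ((1 + ζ) * u)) / (ζ - 1)) ^ m * ((b₂ - b₁) /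
    ((1 + (1 - ζ / ((1 + ζ) * u)) / (ζ - 1)) ^ m - ((1 - ζ / ((1 + ζ) * u)) / (ζ - 1)) ^ m))).subset
    ?_
  rintro x ⟨hx, y₁, y₂, e₁, e₂⟩
  have hS1 : ∀ v ∉ S', v ∉ S ∧ (adv L v).v (b₂ - b₁) = 0 ∧ (adv L v).G 0 b₁ ∧
      (adv L v).G 0 b₂ ∧ (adv L v).v (1 + ζ) = 0 := by
    intro v hv
    simp only [hS', Set.mem_union, Set.mem_ofPred_eq, not_or, not_not] at hv
    obtain ⟨⟨⟨⟨a1, a2⟩, a3⟩, a4⟩, a5⟩ := hv
    exact ⟨a1, a2, a3, a4, a5⟩
  have hf : ∀ ω : L, ω ^ m = 1 → (y₁ - ω * y₂) *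
      (∑ i ∈ Finset.range m, y₁ ^ i * (ω * y₂) ^ (m - 1 - i)) = b₂ - b₁ := by
    intro ω hω
    rw [mul_comm, geom_sum₂_mul, mul_pow, hω]
    linear_combination e₂ - e₁
  have hne : ∀ ω : L, ω ^ m = 1 → y₁ - ω * y₂ ≠ 0 := by
    intro ω hω h0
    apply k21
    rw [← hf ω hω, h0, zero_mul]
  have hζ2m : (ζ ^ 2) ^ m = 1 := by rw [← pow_mul, mul_comm, pow_mul, hζ, one_pow]
  have n0 : y₁ - y₂ ≠ 0 := by simpa using hne 1 (one_pow m)
  have n1 : y₁ - ζ * y₂ ≠ 0 := hne ζ hζ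
  have n2 : y₁ - ζ ^ 2 * y₂ ≠ 0 := hne (ζ ^ 2) hζ2m
  have hωE : ∀ v : HeightOneSpectrum (𝓞 L), ∀ ω : L, ω ^ m = 1 → (adv L v).E 0 ω := by
    intro v ω hω
    have hω0 : ω ≠ 0 := by
      rintro rfl
      rw [zero_pow (by omega)] at hω
      exact zero_ne_one hω
    refine ⟨hω0, ?_⟩
    have h1 := ((E_of_ne (w := adv L v) hω0).pow m).2
    rw [hω, v_one] at h1
    have h2 : (m : ℤ) ≠ 0 := by exact_mod_cast (by omega : m ≠ 0)
    rcases mul_eq_zero.mp h1.symm with h3 | h3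
    · exact absurd h3 h2
    · exact h3
  have hun : ∀ v ∉ S', ∀ ω : L, ω ^ m = 1 → (adv L v).E 0 (y₁ - ω * y₂) := by
    intro v hv ω hω
    obtain ⟨a1, a2, a3, a4, -⟩ := hS1 v hv
    have g0 := hx v a1
    have g1 : (adv L v).G 0 y₁ := G_root (n := m) hm (by rw [← e₁]; exact g0.sub a3)
    have g2 : (adv L v).G 0 y₂ := G_root (n := m) hm (by rw [← e₂]; exact g0.sub a4)
    have gωy : (adv L v).G 0 (ω * y₂) := by simpa using (hωE v ω hω).G.mul g2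
    have hpow : ∀ z : L, (adv L v).G 0 z → ∀ k : ℕ, (adv L v).G 0 (z ^ k) := by
      intro z hz k
      induction k with
      | zero => rw [pow_zero]; exact E_one.G
      | succ k ih =>
        rw [pow_succ]
        simpa using ih.mul hz
    have hsum : (adv L v).G 0 (∑ i ∈ Finset.range m, y₁ ^ i * (ω * y₂) ^ (m - 1 - i)) := by
      apply Finset.sum_induction _ (fun z => (adv L v).G 0 z)
      · intro a b ha hb
        exact ha.add hb
      · exact G_zero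
      · intro i _
        simpa using (hpow _ g1 i).mul (hpow _ gωy (m - 1 - i))
    exact (unit_of_mul (g1.sub gωy) hsum k21 a2 (hf ω hω)).1
  have e1u : 1 - (ζ * (y₁ - y₂) / ((1 + ζ) * (y₁ - ζ * y₂))) =
      (y₁ - ζ ^ 2 * y₂) / ((1 + ζ) * (y₁ - ζ * y₂)) := by
    field_simp
    ring
  have hden : (1 + ζ) * (y₁ - ζ * y₂) ≠ 0 := mul_ne_zero hζp n1
  refine ⟨ζ * (y₁ - y₂) / ((1 + ζ) * (y₁ - ζ * y₂)), ⟨?_, ?_, ?_⟩, ?_⟩
  · exact div_ne_zero (mul_ne_zero hζ0 n0) hden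
  · rw [e1u]
    exact div_ne_zero n2 hden
  · intro v hv
    obtain ⟨a1, a2, a3, a4, a5⟩ := hS1 v hv
    have u0 : (adv L v).E 0 (y₁ - y₂) := by simpa using hun v hv 1 (one_pow m)
    have u1 := hun v hv ζ hζ
    have u2 := hun v hv (ζ ^ 2) hζ2m
    have uζ := hωE v ζ hζ
    have up : (adv L v).E 0 (1 + ζ) := ⟨hζp, a5⟩
    refine ⟨?_, ?_⟩
    · have := ((uζ.mul u0).div (up.mul u1)).2
      simpa using this
    · rw [e1u]
      have := (u2.div (up.mul u1)).2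
      simpa using this
  · obtain ⟨c, hc⟩ : ∃ c, c = y₂ / (y₁ - y₂) := ⟨_, rfl⟩
    have h1 : (1 - ζ / ((1 + ζ) * (ζ * (y₁ - y₂) / ((1 + ζ) * (y₁ - ζ * y₂))))) / (ζ - 1) = c := by
      rw [hc]
      field_simp
      ring
    have h2 : 1 + c = y₁ / (y₁ - y₂) := by
      rw [hc]
      field_simp
      ring
    simp only
    rw [h1, h2, hc, div_pow, div_pow, ← sub_div]
    have h3 : y₁ ^ m - y₂ ^ m = b₂ - b₁ := by linear_combination e₂ - e₁
    rw [h3]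
    have h4 : (y₁ - y₂) ^ m ≠ 0 := pow_ne_zero _ n0
    have h5 : y₂ ^ m / (y₁ - y₂) ^ m * ((b₂ - b₁) / ((b₂ - b₁) / (y₁ - y₂) ^ m)) = y₂ ^ m := by
      field_simp
    rw [h5]
    linear_combination -e₂

end

section
variable {M : Type} [Field M] [NumberField M]

/-- **Two orders divisible by `m ≥ 3`.** -/
theorem fin_pow (S : Set (HeightOneSpectrum (𝓞 M))) (hS : S.Finite) {N : ℕ} (hN : N ≠ 0)
    {b₁ b₂ : M} (h12 : b₁ ≠ b₂) {m : ℕ} (hm : 3 ≤ m) :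
    {x : M | IntN N x ∧ ∀ v ∉ S, (m : ℤ) ∣ (adv M v).v (x - b₁) ∧
      (m : ℤ) ∣ (adv M v).v (x - b₂)}.Finite := by
  classical
  obtain ⟨T, hT0, hT⟩ := sel (K := M) (n := m) (by omega) S hS
  have hZ : ∀ δ ∈ T ×ˢ T, {x : M | IntN N x ∧ ∃ y₁ y₂ : M, x - b₁ = δ.1 * y₁ ^ m ∧
      x - b₂ = δ.2 * y₂ ^ m}.Finite := by
    rintro ⟨δ₁, δ₂⟩ -
    obtain ⟨L, _, _, _, hL⟩ := exists_ext (M := M)
      {X ^ m - C δ₁, X ^ m - C δ₂, cyclotomic m M} (by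
        intro P hP
        simp only [Finset.mem_insert, Finset.mem_singleton] at hP
        rcases hP with rfl | rfl | rfl
        · rw [natDegree_X_pow_sub_C]; omega
        · rw [natDegree_X_pow_sub_C]; omega
        · rw [natDegree_cyclotomic]
          exact (Nat.totient_pos.2 (by omega)).ne')
    obtain ⟨ζ, hζ⟩ := hL (cyclotomic m M) (by simp)
    have hζ' : IsPrimitiveRoot ζ m := by
      have : NeZero (m : L) := ⟨Nat.cast_ne_zero.2 (by omega)⟩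
      rw [← isRoot_cyclotomic_iff, IsRoot.def, ← map_cyclotomic m (algebraMap M L),
        eval_map_algebraMap]
      exact hζ
    have hr : ∀ δ, X ^ m - C δ ∈ ({X ^ m - C δ₁, X ^ m - C δ₂, cyclotomic m M} : Finset M[X]) →
        ∃ s : L, s ^ m = algebraMap M L δ := by
      intro δ hδ
      obtain ⟨s, hs⟩ := hL _ hδ
      refine ⟨s, ?_⟩
      rw [map_sub, map_pow, aeval_X, aeval_C] at hs
      exact sub_eq_zero.1 hs
    obtain ⟨s₁, hs₁⟩ := hr δ₁ (by simp)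
    obtain ⟨s₂, hs₂⟩ := hr δ₂ (by simp)
    have hinj := (algebraMap M L).injective
    have hN0 : (N : L) ≠ 0 := Nat.cast_ne_zero.2 hN
    have hfin := two_pow (L := L) _ (supp_finite hN0) (hinj.ne h12) (by omega : 1 ≤ m)
      hζ'.pow_eq_one (hζ'.ne_one (by omega)) (by
        intro h2
        have := hζ'.dvd_of_pow_eq_one 2 h2
        have := Nat.le_of_dvd (by norm_num) this
        omega)
    refine (hfin.preimage (f := algebraMap M L) hinj.injOn).subset ?_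
    rintro x ⟨hx, y₁, y₂, e₁, e₂⟩
    refine ⟨fun v hv => ?_, s₁ * algebraMap M L y₁, s₂ * algebraMap M L y₂, ?_, ?_⟩
    · simp only [Set.mem_ofPred_eq, not_not] at hv
      exact (hx.map (algebraMap M L)).G0 hN hv
    · rw [mul_pow, hs₁, ← map_sub, e₁]
      simp
    · rw [mul_pow, hs₂, ← map_sub, e₂]
      simp
  refine (((Set.toFinite {b₁, b₂}).union
    (Set.Finite.biUnion (T ×ˢ T).finite_toSet fun δ hδ => hZ δ hδ))).subset ?_
  rintro x ⟨hx, hv⟩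
  by_cases hx1 : x = b₁
  · left; rw [hx1]; simp
  by_cases hx2 : x = b₂
  · left; rw [hx2]; simp
  right
  obtain ⟨δ₁, h1, y₁, -, e₁⟩ := hT (x - b₁) (sub_ne_zero.2 hx1) fun v h => (hv v h).1
  obtain ⟨δ₂, h2, y₂, -, e₂⟩ := hT (x - b₂) (sub_ne_zero.2 hx2) fun v h => (hv v h).2
  exact Set.mem_biUnion (x := (δ₁, δ₂)) (by simp [h1, h2]) ⟨hx, y₁, y₂, e₁, e₂⟩

end

end Run7.h197.ST
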