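import Pool.Agent.Run7.h197.ST.SInt
import Pool.Agent.Run7.h197.ST.Pow

/-!
The theorem of Schinzel and Tijdeman over number fields for `S`-integers, with units outside of a
finite set of primes.
-/

set_option autoImplicit false

namespace Run7.h197.ST

open Finset NumberField IsDedekindDomain Pool.Agent.H691R3 Pool.Agent.Y673.Loc Pool.Agent.Y673.Cnt
open Pool.Agent.Y673.Loc.ZV Pool.Agent.K4H56.IF

variable {K : Type} [Field K] [NumberField K]

/-- **Schinzel-Tijdeman for `S`-integers** -/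
theorem stS (S : Set (HeightOneSpectrum (𝓞 K))) (hS : S.Finite) (N : ℕ) (hN : N ≠ 0) {β β' : K}
    (hβ : β ≠ β') :
    ∃ n₀ : ℕ, {x : K | IntN N x ∧ x ≠ β ∧ x ≠ β' ∧ ∃ n : ℕ, n₀ ≤ n ∧ ∀ v ∉ S,
      (n : ℤ) ∣ (adv K v).v (x - β) ∧ (n : ℤ) ∣ (adv K v).v (x - β')}.Finite := by
  classical
  -- a common denominator
  obtain ⟨M, hM0, hMi⟩ : ∃ M : ℕ, M ≠ 0 ∧ IsIntegral ℤ ((M : K) * (β' - β)) := by
    obtain ⟨M, hM, k, hk⟩ := exists_IntN (β' - β)
    exact ⟨M ^ k, pow_ne_zero _ hM, by push_cast; exact hk⟩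
  have hMK : (M : K) ≠ 0 := Nat.cast_ne_zero.2 hM0
  have hNK : (N : K) ≠ 0 := Nat.cast_ne_zero.2 hN
  let δ : 𝓞 K := ⟨(M : K) * (β' - β), hMi⟩
  have hδ : (δ : K) = (M : K) * (β' - β) := rfl
  have hδ0 : δ ≠ 0 := by
    intro h0
    have h1 : (δ : K) = 0 := by rw [h0]; simp
    rw [hδ] at h1
    rcases mul_eq_zero.mp h1 with h2 | h2
    · exact hMK h2
    · exact hβ (sub_eq_zero.mp h2).symm
  obtain ⟨S', hS'⟩ : ∃ S' : Set (HeightOneSpectrum (𝓞 K)), S' = S ∪ {v | (adv K v).v (N : K) ≠ 0} ∪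
    {v | (adv K v).v (M : K) ≠ 0} ∪ {v | ¬ (adv K v).G 0 β} := ⟨_, rfl⟩
  have hS'f : S'.Finite := by
    rw [hS']
    exact (((hS.union (supp_finite hNK)).union (supp_finite hMK)).union (pole_finite β))
  have hSS' : ∀ v, v ∉ S' → v ∉ S ∧ (adv K v).v (N : K) = 0 ∧ (adv K v).v (M : K) = 0 ∧
      (adv K v).G 0 β := by
    intro v hv
    simp only [hS', Set.mem_union, Set.mem_ofPred_eq, not_or, not_not] at hv
    exact ⟨hv.1.1.1, hv.1.1.2, hv.1.2, hv.2⟩
  obtain ⟨n₁, hfin⟩ := stS_int S' hS'f δ hδ0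
  obtain ⟨B, hB⟩ : ∃ B, B = 4 + ∑ v ∈ hS'f.toFinset, Ideal.absNorm v.asIdeal := ⟨_, rfl⟩
  refine ⟨n₁ + 2 ^ 8, ?_⟩
  have hfin2 : (⋃ m ∈ Finset.Icc 3 B, {x : K | IntN N x ∧ ∀ v ∉ S, (m : ℤ) ∣ (adv K v).v (x - β) ∧
      (m : ℤ) ∣ (adv K v).v (x - β')}).Finite := by
    apply Set.Finite.biUnion (Finset.Icc 3 B).finite_toSet
    intro m hm
    exact fin_pow S hS hN hβ (Finset.mem_Icc.1 hm).1
  refine ((hfin.image (fun y : K => y / (M : K) + β)).union hfin2).subset ?_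
  rintro x ⟨hxi, hxβ, hxβ', n, hn, hxn⟩
  have hx1 : x - β ≠ 0 := sub_ne_zero.mpr hxβ
  have hx2 : x - β' ≠ 0 := sub_ne_zero.mpr hxβ'
  by_cases hpp : ∀ v ∈ S', ∀ p r : ℕ, p.Prime → (p : 𝓞 K) ∈ v.asIdeal → p ^ r ∣ n →
      p ^ r ≤ Nat.size n
  · left
    have hyδ : (M : K) * (x - β) - (δ : K) = (M : K) * (x - β') := by rw [hδ]; ring
    refine ⟨(M : K) * (x - β), ⟨?_, mul_ne_zero hMK hx1, ?_, n, by omega, hpp, ?_⟩, ?_⟩
    · intro v hv
      obtain ⟨a1, a2, a3, a4⟩ := hSS' v hv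
      have h1 : (adv K v).G 0 x := hxi.G0 hN a2
      have h2 : (adv K v).E 0 (M : K) := ⟨hMK, a3⟩
      simpa using h2.G.mul (h1.sub a4)
    · intro h0
      have h1 : (M : K) * (x - β) - (δ : K) = 0 := by rw [h0, sub_self]
      rw [hyδ] at h1
      exact mul_ne_zero hMK hx2 h1
    · intro v hv
      obtain ⟨a1, a2, a3, a4⟩ := hSS' v hv
      rw [hyδ, (adv K v).mul' _ _ hMK hx1, (adv K v).mul' _ _ hMK hx2, a3, zero_add, zero_add]
      exact hxn v a1
    · simp only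
      field_simp
      ring
  · right
    push Not at hpp
    obtain ⟨v, hv, p, r, hp, hpv, hpr, hsz⟩ := hpp
    have hs8 : 8 < Nat.size n := by
      rw [Nat.lt_size]
      omega
    have hpB : p ≤ Ideal.absNorm v.asIdeal := by
      have h1 : Ideal.absNorm v.asIdeal ≠ 0 := by
        rw [Ne, Ideal.absNorm_eq_zero_iff]
        exact v.ne_bot
      apply Nat.le_of_dvd (Nat.pos_of_ne_zero h1)
      rw [← Nat.Prime.coprime_iff_not_dvd hp |>.not_left]
      intro h2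
      have h3 : ((Ideal.absNorm v.asIdeal : ℕ) : 𝓞 K) ∈ v.asIdeal := Ideal.absNorm_mem _
      have h4 := Nat.isCoprime_iff_coprime.2 h2
      obtain ⟨a, b, hab⟩ := h4
      apply v.isPrime.ne_top
      rw [Ideal.eq_top_iff_one]
      have h5 : (1 : 𝓞 K) = (a : 𝓞 K) * (p : 𝓞 K) + (b : 𝓞 K) * (Ideal.absNorm v.asIdeal : 𝓞 K) := by
        exact_mod_cast congrArg (fun z : ℤ => (z : 𝓞 K)) hab.symm
      rw [h5]
      exact v.asIdeal.add_mem (v.asIdeal.mul_mem_left _ hpv) (v.asIdeal.mul_mem_left _ h3)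
    have hvB : Ideal.absNorm v.asIdeal ≤ ∑ v ∈ hS'f.toFinset, Ideal.absNorm v.asIdeal :=
      Finset.single_le_sum (f := fun v : HeightOneSpectrum (𝓞 K) => Ideal.absNorm v.asIdeal)
        (fun _ _ => Nat.zero_le _) (by rw [Set.Finite.mem_toFinset]; exact hv)
    have key : ∃ m : ℕ, 3 ≤ m ∧ m ≤ B ∧ m ∣ n := by
      by_cases hp2 : p = 2
      · refine ⟨4, by norm_num, by omega, ?_⟩
        refine dvd_trans ?_ hpr
        have hr : 2 ≤ r := by
          by_contra hcon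
          have h1 : p ^ r ≤ 2 ^ 1 := by
            rw [hp2]
            exact Nat.pow_le_pow_right (by norm_num) (by omega)
          omega
        have : (4 : ℕ) = p ^ 2 := by rw [hp2]; norm_num
        rw [this]
        exact pow_dvd_pow _ hr
      · refine ⟨p, ?_, by omega, ?_⟩
        · have := hp.two_le
          omega
        · refine dvd_trans ?_ hpr
          apply dvd_pow_self
          rintro rfl
          rw [pow_zero] at hsz
          omega
    obtain ⟨m, hm3, hmB, hmn⟩ := key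
    refine Set.mem_biUnion (x := m) (by simp [hm3, hmB]) ?_
    refine ⟨hxi, fun w hw => ?_⟩
    have h1 : (m : ℤ) ∣ (n : ℤ) := Int.natCast_dvd_natCast.2 hmn
    exact ⟨h1.trans (hxn w hw).1, h1.trans (hxn w hw).2⟩

end Run7.h197.ST
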