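import Pool.Agent.Run7.h197.ST.Arch

/-!
Two integers of a number field which are `n`-th powers up to units outside of a finite set and
whose quotient is close to `1` at an archimedean place.
-/

set_option autoImplicit false

namespace Run7.h197.ST

open Finset NumberField Run7.h197.BK
open Pool.Agent.Y913.Bk (PolyB)

variable {K : Type} [Field K] [NumberField K]

/-- **the archimedean estimate** -/
theorem archS (h : ℕ) (hh : 1 ≤ h) {J : Type} [Fintype J] (γ : J → 𝓞 K) (hγ0 : ∀ j, γ j ≠ 0)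
    (C d : ℕ) :
    ∃ κ n₀ : ℕ, ∀ n, n₀ ≤ n → ∀ (X : ℕ) (x x' Y Y' : 𝓞 K) (e e' : J → ℕ), x ≠ 0 → x' ≠ 0 →
      Y ≠ 0 → Y' ≠ 0 → (∀ j, e j < n) → (∀ j, e' j < n) →
      (x : K) ^ h = (∏ j, (γ j : K) ^ (e j)) * (Y : K) ^ n →
      (x' : K) ^ h = (∏ j, (γ j : K) ^ (e' j)) * (Y' : K) ^ n →
      (∀ φ : K →+* ℂ, ‖φ (x : K)‖ ≤ 2 ^ (C * X) ∧ ‖φ (x' : K)‖ ≤ 2 ^ (C * X)) →
      (∀ N : ℕ, 1 ≤ N → (x : K) ^ N ≠ (x' : K) ^ N) →
      ∀ φ : K →+* ℂ, ‖φ (x : K) / φ (x' : K) - 1‖ ≤ 2 ^ d / 2 ^ X → X ≤ Nat.size n ^ κ := by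
  classical
  obtain ⟨G, c₀, hc₀, hc₁, hγc, hG₀, hγG, hlogG⟩ := exists_bounds γ hγ0
  obtain ⟨κ, g0, hSB⟩ := SB_all K (Fintype.card J + 1)
  obtain ⟨g2, hg2⟩ := ((PolyB.const (4 * (h * C))).mul (PolyB.id.pow κ)).le_two_pow
  obtain ⟨g1, hg1⟩ : ∃ g1, g1 = g0 + g2 + G + d + h + Fintype.card J + 20 := ⟨_, rfl⟩
  refine ⟨κ + 2, 2 ^ g1, ?_⟩
  intro n hn X x x' Y Y' e e' hx0 hx'0 hY0 hY'0 he he' hx hx' hX hroot φ hclose
  obtain ⟨g, hg⟩ : ∃ g, g = Nat.size n := ⟨_, rfl⟩
  rw [← hg]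
  have hgg1 : g1 < g := by
    rw [hg, Nat.lt_size]
    exact hn
  have hn2g : n < 2 ^ g := by rw [hg]; exact Nat.lt_size_self n
  have h2gn : 2 ^ (g - 1) ≤ n := by
    rw [← Nat.lt_size, ← hg]
    omega
  have hn1 : 1 ≤ n := le_trans Nat.one_le_two_pow hn
  have hpoly : 2 * (h * C) * g ^ κ ≤ n := by
    have h1 : 4 * (h * C) * g ^ κ ≤ 2 ^ g := hg2 g (by omega)
    have h2 : 2 ^ g = 2 * 2 ^ (g - 1) := by
      rw [← pow_succ']
      congr 1
      omega
    rw [h2] at h1
    have h3 : 2 * (2 * (h * C) * g ^ κ) ≤ 2 * 2 ^ (g - 1) := by linarith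
    omega
  have hgκ : 1 ≤ g ^ κ := Nat.one_le_pow _ _ (by omega)
  have hfinal : X ≤ 2 * ((d + 1 + h) + g ^ κ * (G + 1)) → X ≤ g ^ (κ + 2) := by
    intro h1
    calc X ≤ 2 * ((d + 1 + h) + g ^ κ * (G + 1)) := h1
      _ ≤ 2 * (g ^ κ * g + g ^ κ * g) := by
          have h2 : d + 1 + h ≤ g := by omega
          have h3 : G + 1 ≤ g := by omega
          have h4 : g ≤ g ^ κ * g := Nat.le_mul_of_pos_left _ (by omega)
          have h5 : g ^ κ * (G + 1) ≤ g ^ κ * g := Nat.mul_le_mul_left _ h3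
          omega
      _ = g ^ κ * g * 4 := by ring
      _ ≤ g ^ κ * g * g := Nat.mul_le_mul_left _ (by omega)
      _ = g ^ (κ + 2) := by ring
  by_cases hXsmall : X ≤ d + 1
  · apply hfinal
    have : 0 ≤ g ^ κ * (G + 1) := Nat.zero_le _
    omega
  push Not at hXsmall
  apply hfinal
  have hφx' : φ (x' : K) ≠ 0 := by
    rw [map_ne_zero]
    exact RingOfIntegers.coe_ne_zero_iff.mpr hx'0
  have hφx : φ (x : K) ≠ 0 := by
    rw [map_ne_zero]
    exact RingOfIntegers.coe_ne_zero_iff.mpr hx0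
  have hφY : φ (Y : K) ≠ 0 := by
    rw [map_ne_zero]
    exact RingOfIntegers.coe_ne_zero_iff.mpr hY0
  have hφY' : φ (Y' : K) ≠ 0 := by
    rw [map_ne_zero]
    exact RingOfIntegers.coe_ne_zero_iff.mpr hY'0
  have hφγ : ∀ j, φ (γ j : K) ≠ 0 := by
    intro j
    rw [map_ne_zero]
    exact RingOfIntegers.coe_ne_zero_iff.mpr (hγ0 j)
  obtain ⟨u, hu⟩ : ∃ u : ℂ, u = φ (x : K) / φ (x' : K) := ⟨_, rfl⟩
  have hu0 : u ≠ 0 := by rw [hu]; exact div_ne_zero hφx hφx'
  have hu1n : ‖u - 1‖ ≤ 2 ^ d / 2 ^ X := by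
    rw [hu]
    exact hclose
  have hu1h : ‖u - 1‖ ≤ 1 / 2 := by
    refine hu1n.trans ?_
    rw [div_le_div_iff₀ (by positivity) (by norm_num), one_mul, ← pow_succ]
    exact pow_le_pow_right₀ (by norm_num) (by omega)
  have hlogu : ‖Complex.log u‖ ≤ 2 * ‖u - 1‖ := by
    have h1 := Complex.norm_log_one_add_half_le_self (z := u - 1) hu1h
    rw [add_sub_cancel] at h1
    have := norm_nonneg (u - 1)
    linarith
  -- the relation of logarithms
  have hpow : u ^ h = (φ (Y : K) / φ (Y' : K)) ^ n * ∏ j, (φ (γ j : K)) ^ ((e j : ℤ) - (e' j : ℤ)) := by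
    have h1 : φ (x : K) ^ h = (∏ j, φ (γ j : K) ^ (e j)) * φ (Y : K) ^ n := by
      rw [← map_pow, hx, map_mul, map_prod, map_pow]
      congr 1
      exact Finset.prod_congr rfl (fun j _ => map_pow _ _ _)
    have h2 : φ (x' : K) ^ h = (∏ j, φ (γ j : K) ^ (e' j)) * φ (Y' : K) ^ n := by
      rw [← map_pow, hx', map_mul, map_prod, map_pow]
      congr 1
      exact Finset.prod_congr rfl (fun j _ => map_pow _ _ _)
    have h3 : ∏ j, (φ (γ j : K)) ^ ((e j : ℤ) - (e' j : ℤ)) =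
        (∏ j, φ (γ j : K) ^ (e j)) / ∏ j, φ (γ j : K) ^ (e' j) := by
      rw [← Finset.prod_div_distrib]
      apply Finset.prod_congr rfl
      intro j _
      rw [zpow_sub₀ (hφγ j), zpow_natCast, zpow_natCast]
    have h4 : ∏ j, φ (γ j : K) ^ (e' j) ≠ 0 :=
      Finset.prod_ne_zero_iff.mpr (fun j _ => pow_ne_zero _ (hφγ j))
    rw [hu, div_pow, h1, h2, h3, div_pow]
    field_simp
  obtain ⟨k, hk⟩ : ∃ k : ℤ, (n : ℂ) * Complex.log (φ (Y : K) / φ (Y' : K)) +
      ∑ j, (((e j : ℤ) - (e' j : ℤ) : ℤ) : ℂ) * Complex.log (φ (γ j : K)) =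
      h * Complex.log u + k * (2 * Real.pi * Complex.I) := by
    rw [← Complex.exp_eq_exp_iff_exists_int, Complex.exp_add, Complex.exp_nat_mul,
      Complex.exp_log (div_ne_zero hφY hφY'), Complex.exp_sum, Complex.exp_nat_mul,
      Complex.exp_log hu0, hpow]
    congr 1
    apply Finset.prod_congr rfl
    intro j _
    rw [Complex.exp_int_mul, Complex.exp_log (hφγ j)]
  -- the size of `k`
  have hkn : |k| ≤ g * |(n : ℤ)| := by
    have h1 := congrArg Complex.im hk
    have h2 : (h * Complex.log u + k * (2 * Real.pi * Complex.I)).im =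
        h * (Complex.log u).im + k * (2 * Real.pi) := by
      simp
    rw [h2, Complex.add_im, Complex.im_sum] at h1
    have h3 : ((n : ℂ) * Complex.log (φ (Y : K) / φ (Y' : K))).im =
        n * (Complex.log (φ (Y : K) / φ (Y' : K))).im := by simp
    have h4 : ∀ j, ((((e j : ℤ) - (e' j : ℤ) : ℤ) : ℂ) * Complex.log (φ (γ j : K))).im =
        (((e j : ℤ) - (e' j : ℤ) : ℤ) : ℝ) * (Complex.log (φ (γ j : K))).im := by
      intro j
      rw [Complex.mul_im, Complex.intCast_im, Complex.intCast_re]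
      ring
    rw [h3, Finset.sum_congr rfl (fun j _ => h4 j)] at h1
    have hpi := Real.pi_pos
    have him : ∀ z : ℂ, |(Complex.log z).im| ≤ Real.pi := by
      intro z
      rw [Complex.log_im]
      exact Complex.abs_arg_le_pi z
    have h5 : |(n : ℝ) * (Complex.log (φ (Y : K) / φ (Y' : K))).im| ≤ n * Real.pi := by
      rw [abs_mul, Nat.abs_cast]
      exact mul_le_mul_of_nonneg_left (him _) (Nat.cast_nonneg _)
    have h6 : |∑ j, (((e j : ℤ) - (e' j : ℤ) : ℤ) : ℝ) * (Complex.log (φ (γ j : K))).im| ≤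
        Fintype.card J * (n * Real.pi) := by
      calc _ ≤ ∑ j, |(((e j : ℤ) - (e' j : ℤ) : ℤ) : ℝ) * (Complex.log (φ (γ j : K))).im| :=
            Finset.abs_sum_le_sum_abs _ _
        _ ≤ ∑ _j : J, (n : ℝ) * Real.pi := by
            apply Finset.sum_le_sum
            intro j _
            rw [abs_mul]
            apply mul_le_mul _ (him _) (abs_nonneg _) (Nat.cast_nonneg _)
            rw [← Int.cast_abs]
            have h7 : |(e j : ℤ) - (e' j : ℤ)| ≤ n := by
              have h8 := he j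
              have h9 := he' j
              rw [abs_le]
              constructor <;> omega
            exact_mod_cast h7
        _ = _ := by rw [Finset.sum_const, Finset.card_univ, nsmul_eq_mul]
    have h7 : |(h : ℝ) * (Complex.log u).im| ≤ h * Real.pi := by
      rw [abs_mul, Nat.abs_cast]
      exact mul_le_mul_of_nonneg_left (him _) (Nat.cast_nonneg _)
    have h8 : |(k : ℝ)| * (2 * Real.pi) ≤ n * Real.pi + Fintype.card J * (n * Real.pi) +
        h * Real.pi := by
      have h9 : (k : ℝ) * (2 * Real.pi) = n * (Complex.log (φ (Y : K) / φ (Y' : K))).im +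
          (∑ j, (((e j : ℤ) - (e' j : ℤ) : ℤ) : ℝ) * (Complex.log (φ (γ j : K))).im) -
          h * (Complex.log u).im := by linarith
      have h10 : |(k : ℝ)| * (2 * Real.pi) = |(k : ℝ) * (2 * Real.pi)| := by
        rw [abs_mul, abs_of_pos (by positivity : 0 < 2 * Real.pi)]
      rw [h10, h9]
      refine (abs_sub _ _).trans ?_
      have h11 := abs_add_le (n * (Complex.log (φ (Y : K) / φ (Y' : K))).im)
        (∑ j, (((e j : ℤ) - (e' j : ℤ) : ℤ) : ℝ) * (Complex.log (φ (γ j : K))).im)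
      linarith
    have h9 : |(k : ℝ)| ≤ n + Fintype.card J * n + h := by
      have h10 : |(k : ℝ)| * Real.pi ≤ (n + Fintype.card J * n + h) * Real.pi := by
        have h11 : 0 ≤ |(k : ℝ)| * Real.pi := by positivity
        linarith
      exact le_of_mul_le_mul_right h10 hpi
    have h10 : |k| ≤ ((n + Fintype.card J * n + h : ℕ) : ℤ) := by
      rw [← Int.cast_abs] at h9
      exact_mod_cast h9
    refine h10.trans ?_
    have h11 : n + Fintype.card J * n + h ≤ g * n := by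
      have h12 : h ≤ h * n := Nat.le_mul_of_pos_right _ hn1
      have h13 : (1 + Fintype.card J + h) * n ≤ g * n := Nat.mul_le_mul_right _ (by omega)
      nlinarith
    rw [Nat.abs_cast]
    exact_mod_cast h11
  -- the linear form
  let τ := Option J
  let aa : Option τ → 𝓞 K := fun i => i.elim Y (fun i => i.elim 1 γ)
  let cc : Option τ → 𝓞 K := fun i => i.elim Y' (fun _ => 1)
  let ℓ : Option τ → ℂ := fun i => i.elim (Complex.log (φ (Y : K) / φ (Y' : K)))
    (fun i => i.elim (2 * Real.pi * Complex.I) (fun j => Complex.log (φ (γ j : K))))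
  let b : Option τ → ℤ := fun i => i.elim (n : ℤ) (fun i => i.elim (-k)
    (fun j => (e j : ℤ) - (e' j : ℤ)))
  have hLam : Lam ℓ b = h * Complex.log u := by
    unfold Lam
    rw [Fintype.sum_option, Fintype.sum_option]
    simp only [ℓ, b, Option.elim_none, Option.elim_some]
    push_cast at hk ⊢
    linear_combination hk
  have hnt : ∀ N : ℕ, 1 ≤ N → Complex.exp (N * Lam ℓ b) ≠ 1 := by
    intro N hN hexp
    rw [hLam, Complex.exp_nat_mul, Complex.exp_nat_mul, Complex.exp_log hu0, hu, ← pow_mul,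
      div_pow, div_eq_one_iff_eq (pow_ne_zero _ hφx')] at hexp
    apply hroot (h * N) (Nat.mul_pos hh hN)
    apply φ.injective
    rw [map_pow, map_pow]
    exact hexp
  obtain ⟨H, hH⟩ : ∃ H, H = G + (h * (C * X) / n + 1) := ⟨_, rfl⟩
  have hYb : ∀ ψ : K →+* ℂ, ‖ψ (Y : K)‖ ≤ 2 ^ H := fun ψ => by
    rw [hH]
    exact root_bound γ G c₀ hc₀ hc₁ hγc hG₀ n (C * X) hn1 x Y e he hx ψ (hX ψ).1
  have hY'b : ∀ ψ : K →+* ℂ, ‖ψ (Y' : K)‖ ≤ 2 ^ H := fun ψ => by
    rw [hH]
    exact root_bound γ G c₀ hc₀ hc₁ hγc hG₀ n (C * X) hn1 x' Y' e' he' hx' ψ (hX ψ).2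
  have hHg : (2 : ℝ) ^ H ≤ 2 ^ (g * H) :=
    pow_le_pow_right₀ (by norm_num) (Nat.le_mul_of_pos_left _ (by omega))
  have hone : (1 : ℝ) ≤ 2 ^ (g * 1) := one_le_pow₀ (by norm_num)
  have hone' : ∀ ψ : K →+* ℂ, ψ ((1 : 𝓞 K) : K) = 1 := fun ψ => by simp
  have hH1 : 1 ≤ H := by
    rw [hH, ← add_assoc]
    exact Nat.le_add_left 1 _
  have hlow := SB.transfer hSB (τ := τ) (by rw [Fintype.card_option]) g (by omega) H hH1 φ
    aa cc ℓ b
    (by
      rintro (_ | _ | j)
      · exact hY0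
      · exact one_ne_zero
      · exact hγ0 j)
    (by
      rintro (_ | i)
      · exact hY'0
      · exact one_ne_zero)
    (by
      rintro ψ (_ | _ | j)
      · exact (hYb ψ).trans hHg
      · show ‖ψ ((1 : 𝓞 K) : K)‖ ≤ 2 ^ (g * 1)
        rw [hone', norm_one]
        exact hone
      · show ‖ψ (γ j : K)‖ ≤ 2 ^ (g * 1)
        exact (hγG ψ j).trans (pow_le_pow_right₀ (by norm_num) (by omega)))
    (by
      rintro ψ (_ | i)
      · exact (hY'b ψ).trans hHg
      · show ‖ψ ((1 : 𝓞 K) : K)‖ ≤ 2 ^ (g * 1)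
        rw [hone', norm_one]
        exact hone)
    (by
      rintro (_ | _ | j)
      · show Complex.exp (Complex.log (φ (Y : K) / φ (Y' : K))) = φ (Y : K) / φ (Y' : K)
        exact Complex.exp_log (div_ne_zero hφY hφY')
      · show Complex.exp (2 * Real.pi * Complex.I) = φ ((1 : 𝓞 K) : K) / φ ((1 : 𝓞 K) : K)
        rw [Complex.exp_two_pi_mul_I, hone', div_one]
      · show Complex.exp (Complex.log (φ (γ j : K))) = φ (γ j : K) / φ ((1 : 𝓞 K) : K)
        rw [hone', div_one, Complex.exp_log (hφγ j)])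
    (by
      rintro (_ | j)
      · show ‖(2 * Real.pi * Complex.I : ℂ)‖ ≤ g
        rw [norm_mul, norm_mul, Complex.norm_I, mul_one, Complex.norm_real, Real.norm_eq_abs,
          abs_of_pos Real.pi_pos, Complex.norm_ofNat]
        have h1 := Real.pi_lt_d2
        have h2 : (20 : ℝ) ≤ g := by exact_mod_cast (by omega : 20 ≤ g)
        linarith
      · show ‖Complex.log (φ (γ j : K))‖ ≤ g
        refine (hlogG φ j).trans ?_
        exact_mod_cast (by omega : G ≤ g))
    (by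
      show (n : ℤ) ≠ 0
      exact_mod_cast (by omega : n ≠ 0))
    (by
      show |(n : ℤ)| ≤ 2 ^ g
      rw [Nat.abs_cast]
      exact_mod_cast hn2g.le)
    (by
      rintro (_ | j)
      · show |-k| ≤ g * |(n : ℤ)|
        rw [abs_neg]
        exact hkn
      · show |(e j : ℤ) - (e' j : ℤ)| ≤ g * |(n : ℤ)|
        have h8 := he j
        have h9 := he' j
        have h10 : |(e j : ℤ) - (e' j : ℤ)| ≤ n := by
          rw [abs_le]
          constructor <;> omega
        rw [Nat.abs_cast]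
        refine h10.trans ?_
        exact_mod_cast Nat.le_mul_of_pos_left n (by omega : 0 < g))
    hnt
  -- conclusion
  have hup : ‖Lam ℓ b‖ ≤ 2 ^ (d + 1 + h) / 2 ^ X := by
    rw [hLam, norm_mul, Complex.norm_natCast]
    have hh2 : (h : ℝ) ≤ 2 ^ h := by exact_mod_cast Nat.lt_two_pow_self.le
    calc (h : ℝ) * ‖Complex.log u‖ ≤ 2 ^ h * (2 * (2 ^ d / 2 ^ X)) := by
          have := norm_nonneg (Complex.log u)
          have h1 : ‖Complex.log u‖ ≤ 2 * (2 ^ d / 2 ^ X) := by linarith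
          gcongr
      _ = 2 ^ (d + 1 + h) / 2 ^ X := by
          have e9 : (2 : ℝ) ^ (d + 1 + h) = 2 ^ h * 2 * 2 ^ d := by
            rw [← pow_succ, ← pow_add]
            congr 1
            ring
          rw [e9]
          ring
  have hcomb : (2 : ℝ) ^ X ≤ 2 ^ (d + 1 + h + g ^ κ * H) := by
    have h1 := hlow.trans hup
    rw [le_div_iff₀ (by positivity), one_div, inv_pow, inv_mul_le_iff₀ (by positivity),
      ← pow_add] at h1
    rw [add_comm (d + 1 + h)]
    exact h1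
  have hcomb' : X ≤ d + 1 + h + g ^ κ * H := by
    by_contra hcon
    push Not at hcon
    have := pow_lt_pow_right₀ (by norm_num : (1 : ℝ) < 2) hcon
    linarith
  have hhalf : 2 * (g ^ κ * (h * (C * X) / n)) ≤ X := by
    rcases Nat.eq_zero_or_pos C with hC0 | hC0
    · rw [hC0, zero_mul, mul_zero, Nat.zero_div, mul_zero, mul_zero]
      exact Nat.zero_le _
    have h1 : n * (h * (C * X) / n) ≤ h * (C * X) := Nat.mul_div_le _ _
    have h2 : h * C * (2 * (g ^ κ * (h * (C * X) / n))) ≤ h * C * X := by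
      calc h * C * (2 * (g ^ κ * (h * (C * X) / n))) =
            (2 * (h * C) * g ^ κ) * (h * (C * X) / n) := by ring
        _ ≤ n * (h * (C * X) / n) := Nat.mul_le_mul_right _ hpoly
        _ ≤ h * (C * X) := h1
        _ = h * C * X := by ring
    exact Nat.le_of_mul_le_mul_left h2 (Nat.mul_pos hh hC0)
  rw [hH] at hcomb'
  have h3 : g ^ κ * (G + (h * (C * X) / n + 1)) = g ^ κ * (G + 1) + g ^ κ * (h * (C * X) / n) := by ring
  rw [h3] at hcomb'
  generalize g ^ κ * (h * (C * X) / n) = A at *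
  generalize g ^ κ * (G + 1) = B at *
  omega

end Run7.h197.ST
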