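import Pool.Agent.Y496.GensC
import Pool.Agent.Y673.Cnt.Basic

/-!
Integers of a number field whose valuations outside of a finite set of primes are divisible by `n`.
-/

set_option autoImplicit false

namespace Run7.h197.ST

open NumberField IsDedekindDomain Finset Pool.Agent.H691R3 Pool.Agent.Y673.Loc Pool.Agent.Y673.Cnt

variable {K : Type} [Field K] [NumberField K]

lemma zpow_split {F : Type} [Field F] (z : F) (a : ℤ) (ha : 0 ≤ a) (n : ℕ) (hn : 1 ≤ n) :
    z ^ a = z ^ ((a % n).toNat) * (z ^ ((a / n).toNat)) ^ n := by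
  have hn0 : (n : ℤ) ≠ 0 := by exact_mod_cast (by omega : n ≠ 0)
  have h1 : 0 ≤ a % n := Int.emod_nonneg _ hn0
  have h2 : 0 ≤ a / n := Int.ediv_nonneg ha (by positivity)
  rw [← pow_mul, ← pow_add, ← zpow_natCast]
  congr 1
  push_cast
  rw [Int.toNat_of_nonneg h1, Int.toNat_of_nonneg h2]
  have := Int.emod_add_mul_ediv a n
  linarith

lemma zpow_split' {F : Type} [Field F] (z : F) (hz : z ≠ 0) (a : ℤ) (n : ℕ) (hn : 1 ≤ n) :
    z ^ a = z ^ ((a % n).toNat) * (z ^ (a / n)) ^ n := by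
  have hn0 : (n : ℤ) ≠ 0 := by exact_mod_cast (by omega : n ≠ 0)
  have h1 : 0 ≤ a % n := Int.emod_nonneg _ hn0
  rw [← zpow_natCast z, ← zpow_natCast (z ^ (a / n)), ← zpow_mul, ← zpow_add₀ hz,
    Int.toNat_of_nonneg h1]
  congr 1
  have := Int.emod_add_mul_ediv a n
  linarith

/-- **representation** -/
theorem rep (S : Finset (HeightOneSpectrum (𝓞 K))) :
    ∃ (h : ℕ) (J : Type) (_ : Fintype J) (γ : J → 𝓞 K), 1 ≤ h ∧ (∀ j, γ j ≠ 0) ∧
      ∀ n : ℕ, 1 ≤ n → ∀ x : 𝓞 K, x ≠ 0 → (∀ v, v ∉ S → (n : ℤ) ∣ (adv K v).v (x : K)) →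
        ∃ (e : J → ℕ) (Y : 𝓞 K), Y ≠ 0 ∧ (∀ j, e j < n) ∧
          (x : K) ^ h = (∏ j, (γ j : K) ^ (e j)) * (Y : K) ^ n := by
  classical
  obtain ⟨h, r, C, ε, g, hh, hC, hε, hg1, hg2, -, -, -, hrep⟩ := Pool.Agent.Y496.gensC K
  have hg0 : ∀ v, (g v : K) ≠ 0 := by
    intro v h0
    have h1 := hg1 v
    rw [h0, map_zero] at h1
    have h3 := two_le_Nv v
    have h2 : 0 < (Nv v)⁻¹ ^ h := pow_pos (inv_pos.2 (by linarith)) _
    rw [← h1] at h2
    exact lt_irrefl _ h2
  have hε0 : ∀ j, (ε j : K) ≠ 0 := by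
    intro j
    exact RingOfIntegers.coe_ne_zero_iff.mpr (hε j).ne_zero
  choose u hu using fun j => hε j
  refine ⟨h, Fin r ⊕ {v // v ∈ S}, inferInstance, Sum.elim ε (fun v => g v.1), hh, ?_, ?_⟩
  · rintro (j | v)
    · exact (hε j).ne_zero
    · exact RingOfIntegers.coe_ne_zero_iff.mp (hg0 v.1)
  intro n hn x hx hxS
  have hx0 : (x : K) ≠ 0 := RingOfIntegers.coe_ne_zero_iff.mpr hx
  have hn0 : (n : ℤ) ≠ 0 := by exact_mod_cast (by omega : n ≠ 0)
  have hnpos : (0 : ℤ) < n := by exact_mod_cast (by omega : 0 < n)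
  let a : HeightOneSpectrum (𝓞 K) → ℤ := fun v => (adv K v).v (x : K)
  have ha0 : ∀ v, 0 ≤ a v := fun v => adv_nonneg K v x hx
  let T : Finset (HeightOneSpectrum (𝓞 K)) := S ∪ (adv_finite hx0).toFinset
  have hST : S ⊆ T := Finset.subset_union_left
  obtain ⟨b, -, hb⟩ := hrep T a (x : K) (∑ w : InfinitePlace K, |Real.log (w (x : K))| +
    ∑ v ∈ T, |(a v : ℝ)| * Real.log (Nv v)) hx0 (by
      intro v hv
      rw [fv_eq_one_iff v hx0]
      by_contra hne
      apply hv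
      apply Finset.mem_union_right
      rw [Set.Finite.mem_toFinset]
      exact hne) (by
      intro v _
      rw [fv_adv v hx0, inv_zpow']) (by
      intro w
      have h1 : |Real.log (w (x : K))| ≤ ∑ w : InfinitePlace K, |Real.log (w (x : K))| :=
        Finset.single_le_sum (f := fun w : InfinitePlace K => |Real.log (w (x : K))|)
          (fun _ _ => abs_nonneg _) (Finset.mem_univ w)
      have h2 : 0 ≤ ∑ v ∈ T, |(a v : ℝ)| * Real.log (Nv v) :=
        Finset.sum_nonneg (fun v _ => mul_nonneg (abs_nonneg _) (log_Nv_pos v).le)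
      linarith) (by
      have h2 : 0 ≤ ∑ w : InfinitePlace K, |Real.log (w (x : K))| :=
        Finset.sum_nonneg (fun _ _ => abs_nonneg _)
      linarith)
  have hmod0 : ∀ v, v ∉ S → a v % n = 0 := fun v hv => Int.emod_eq_zero_of_dvd (hxS v hv)
  refine ⟨Sum.elim (fun j => (b j % n).toNat) (fun v => (a v.1 % n).toNat),
    (∏ j, ((u j ^ (b j / n) : (𝓞 K)ˣ) : 𝓞 K)) * ∏ v ∈ T, g v ^ ((a v / n).toNat), ?_, ?_, ?_⟩
  · apply mul_ne_zero
    · exact Finset.prod_ne_zero_iff.mpr (fun j _ => Units.ne_zero _)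
    · exact Finset.prod_ne_zero_iff.mpr (fun v _ => pow_ne_zero _
        (RingOfIntegers.coe_ne_zero_iff.mp (hg0 v)))
  · rintro (j | v)
    · have h1 := Int.emod_nonneg (b j) hn0
      have h2 := Int.emod_lt_of_pos (b j) hnpos
      simp only [Sum.elim_inl]
      omega
    · have h1 := Int.emod_nonneg (a v.1) hn0
      have h2 := Int.emod_lt_of_pos (a v.1) hnpos
      simp only [Sum.elim_inr]
      omega
  · rw [hb, Fintype.prod_sum_type]
    simp only [Sum.elim_inl, Sum.elim_inr]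
    have e1 : ∏ j, (ε j : K) ^ (b j) = (∏ j, (ε j : K) ^ ((b j % n).toNat)) *
        (∏ j, (ε j : K) ^ (b j / n)) ^ n := by
      rw [← Finset.prod_pow, ← Finset.prod_mul_distrib]
      exact Finset.prod_congr rfl (fun j _ => zpow_split' _ (hε0 j) _ n hn)
    have e2 : ∏ v ∈ T, (g v : K) ^ (a v) = (∏ v ∈ T, (g v : K) ^ ((a v % n).toNat)) *
        (∏ v ∈ T, (g v : K) ^ ((a v / n).toNat)) ^ n := by
      rw [← Finset.prod_pow, ← Finset.prod_mul_distrib]
      exact Finset.prod_congr rfl (fun v _ => zpow_split _ _ (ha0 v) n hn)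
    have e3 : ∏ v ∈ T, (g v : K) ^ ((a v % n).toNat) =
        ∏ v : {v // v ∈ S}, (g v.1 : K) ^ ((a v.1 % n).toNat) := by
      rw [← Finset.prod_subset hST]
      · exact (Finset.prod_coe_sort S (fun v => (g v : K) ^ ((a v % n).toNat))).symm
      · intro v _ hv
        rw [hmod0 v hv]
        simp
    have e4 : (((∏ j, ((u j ^ (b j / n) : (𝓞 K)ˣ) : 𝓞 K)) * ∏ v ∈ T, g v ^ ((a v / n).toNat) :
        𝓞 K) : K) = (∏ j, (ε j : K) ^ (b j / n)) * ∏ v ∈ T, (g v : K) ^ ((a v / n).toNat) := by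
      show algebraMap (𝓞 K) K _ = _
      rw [map_mul, map_prod, map_prod]
      congr 1
      · apply Finset.prod_congr rfl
        intro j _
        have h3 := congrArg (fun y : Kˣ => (y : K))
          (map_zpow (Units.map (algebraMap (𝓞 K) K : 𝓞 K →* K)) (u j) (b j / n))
        simp only [Units.coe_map, Units.val_zpow_eq_zpow_val] at h3
        rw [← hu j]
        exact h3
    rw [e1, e2, e3, e4]
    ring

end Run7.h197.ST
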