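import Pool.Agent.Run7.h197.ST.Arch
import Pool.Agent.Run7.h197.ST.Rep
import Pool.Agent.K4H56.IF.Fin3

/-!
The theorem of Schinzel and Tijdeman over number fields, with units outside of a finite set of
primes: if `x` and `x - δ` are integers of a number field whose valuations outside of a finite set
are divisible by `n`, and `n` is large, then `x` belongs to a finite set.
-/

set_option autoImplicit false

namespace Run7.h197.ST

open Finset NumberField IsDedekindDomain Pool.Agent.H691R3 Pool.Agent.Y673.Loc Pool.Agent.Y673.Cnt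
open Pool.Agent.Y673.Loc.ZV
open Pool.Agent.Y913.Bk (PolyB)

variable {K : Type} [Field K] [NumberField K]

/-- a small integer with a large valuation -/
theorem val_small {x : 𝓞 K} (hx : x ≠ 0) (M n : ℕ)
    (hM : ∀ φ : K →+* ℂ, ‖φ (x : K)‖ ≤ 2 ^ M) (v : HeightOneSpectrum (𝓞 K))
    (hn : (n : ℤ) ∣ (adv K v).v (x : K)) (hv : (adv K v).v (x : K) ≠ 0) :
    n ≤ Module.finrank ℚ K * M := by
  have h0 : 0 ≤ (adv K v).v (x : K) := adv_nonneg K v x hx
  have h1 : (n : ℤ) ≤ (adv K v).v (x : K) := Int.le_of_dvd (by omega) hn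
  have hx0 : (x : K) ≠ 0 := RingOfIntegers.coe_ne_zero_iff.mpr hx
  have h2 : (adv K v).v (x : K) = -WithZero.log (v.valuation K (x : K)) := rfl
  have h3 : v.valuation K (x : K) = v.intValuation x := v.valuation_of_algebraMap x
  have h4 : v.intValuation x ≤ WithZero.exp (-(n : ℤ)) := by
    have hne : v.intValuation x ≠ 0 := by
      rw [← h3]
      exact (Valuation.ne_zero_iff _).mpr hx0
    rw [← WithZero.exp_log hne, WithZero.exp_le_exp]
    rw [h3] at h2
    omega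
  rw [HeightOneSpectrum.intValuation_le_pow_iff_dvd] at h4
  have h5 := map_dvd Ideal.absNorm h4
  rw [map_pow] at h5
  have h6 : Ideal.absNorm (Ideal.span {x}) ≠ 0 := by
    rw [Ne, Ideal.absNorm_eq_zero_iff, Ideal.span_singleton_eq_bot]
    exact hx
  have h7 : 2 ^ n ≤ Ideal.absNorm (Ideal.span {x}) := by
    refine le_trans (Nat.pow_le_pow_left ?_ n) (Nat.le_of_dvd (Nat.pos_of_ne_zero h6) h5)
    have h8 := two_le_Nv v
    unfold Nv at h8
    exact_mod_cast h8
  have h8 : (Ideal.absNorm (Ideal.span {x}) : ℝ) ≤ 2 ^ (Module.finrank ℚ K * M) := by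
    rw [Ideal.absNorm_span_singleton]
    obtain ⟨σ⟩ := (inferInstance : Nonempty (K →+* ℂ))
    have h9 := norm_norm_le_norm_mul_house_pow (x : K) σ
    have h10 : house (x : K) ≤ 2 ^ M := by
      unfold house
      rw [pi_norm_le_iff_of_nonneg (by positivity)]
      exact hM
    have h11 : ‖Algebra.norm ℚ (x : K)‖ = ((Algebra.norm ℤ x).natAbs : ℝ) := by
      rw [← Algebra.coe_norm_int, ← Rat.norm_cast_real, Rat.cast_intCast, Real.norm_eq_abs,
        Nat.cast_natAbs, Int.cast_abs]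
    rw [h11] at h9
    refine h9.trans ?_
    have hD : 1 ≤ Module.finrank ℚ K := Module.finrank_pos
    calc ‖σ (x : K)‖ * house (x : K) ^ (Module.finrank ℚ K - 1)
        ≤ 2 ^ M * (2 ^ M) ^ (Module.finrank ℚ K - 1) := by
          have := house_nonneg (x : K)
          gcongr
          exact hM σ
      _ = 2 ^ (Module.finrank ℚ K * M) := by
          rw [← pow_succ', ← pow_mul]
          congr 1
          rw [Nat.sub_add_cancel hD, mul_comm]
  have h9 : (2 : ℝ) ^ n ≤ 2 ^ (Module.finrank ℚ K * M) := by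
    refine le_trans ?_ h8
    exact_mod_cast h7
  by_contra hcon
  push Not at hcon
  have := pow_lt_pow_right₀ (by norm_num : (1 : ℝ) < 2) hcon
  linarith

variable (K) in
/-- the roots of unity -/
theorem roots_finite : {z : K | ∃ N : ℕ, 1 ≤ N ∧ z ^ N = 1}.Finite := by
  refine (Embeddings.finite_of_norm_le K ℂ 1).subset ?_
  rintro z ⟨N, hN, hz⟩
  refine ⟨?_, fun φ => ?_⟩
  · exact IsIntegral.of_pow (n := N) (by omega) (by rw [hz]; exact isIntegral_one)
  · have h1 : ‖φ z‖ ^ N = 1 := by rw [← norm_pow, ← map_pow, hz, map_one, norm_one]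
    exact ((pow_eq_one_iff_of_nonneg (norm_nonneg _) (by omega : N ≠ 0)).mp h1).le

/-- **Schinzel-Tijdeman with units**, integral form -/
theorem st_int (S : Set (HeightOneSpectrum (𝓞 K))) (hS : S.Finite) (δ : 𝓞 K) (hδ : δ ≠ 0) :
    ∃ n₀ : ℕ, {x : 𝓞 K | x ≠ 0 ∧ x ≠ δ ∧ ∃ n : ℕ, n₀ ≤ n ∧ ∀ v ∉ S,
      (n : ℤ) ∣ (adv K v).v (x : K) ∧ (n : ℤ) ∣ (adv K v).v ((x : K) - (δ : K))}.Finite := by
  classical
  obtain ⟨h, J, iJ, γ, hh, hγ, hrep⟩ := rep hS.toFinset
  obtain ⟨κ, n1, harch⟩ := arch h hh γ hγ δ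
  obtain ⟨g2, hg2⟩ := ((PolyB.const (4 * Module.finrank ℚ K)).mul (PolyB.id.pow κ)).le_two_pow
  have hδ0 : (δ : K) ≠ 0 := RingOfIntegers.coe_ne_zero_iff.mpr hδ
  refine ⟨n1 + 2 ^ (g2 + 1), ?_⟩
  -- the two finite sets
  have hA1 : {x : 𝓞 K | x ≠ δ ∧ ∃ N : ℕ, 1 ≤ N ∧ (x : K) ^ N = ((x : K) - (δ : K)) ^ N}.Finite := by
    refine (((roots_finite K).image (fun z => z * (δ : K) / (z - 1))).preimage
      (f := fun x : 𝓞 K => (x : K)) ?_).subset ?_
    · intro x _ y _ hxy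
      exact RingOfIntegers.coe_injective hxy
    rintro x ⟨hx, N, hN, hxN⟩
    have hx'0 : (x : K) - (δ : K) ≠ 0 := by
      intro h0
      exact hx (RingOfIntegers.coe_injective (sub_eq_zero.mp h0))
    refine ⟨(x : K) / ((x : K) - (δ : K)), ⟨N, hN, ?_⟩, ?_⟩
    · rw [div_pow, hxN, div_self (pow_ne_zero _ hx'0)]
    · have h1 : (x : K) / ((x : K) - (δ : K)) - 1 = (δ : K) / ((x : K) - (δ : K)) := by
        field_simp
        ring
      simp only
      rw [h1]
      field_simp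
  have hA2 : {x : 𝓞 K | x ≠ 0 ∧ x ≠ δ ∧ ∀ v ∉ S, (adv K v).v (x : K) = 0 ∧
      (adv K v).v ((x : K) - (δ : K)) = 0}.Finite := by
    have hsu := Pool.Agent.K4H56.IF.su (S ∪ {v | (adv K v).v (δ : K) ≠ 0})
      (hS.union (Pool.Agent.K4H56.IF.supp_finite hδ0))
    refine (hsu.preimage (f := fun x : 𝓞 K => (x : K) / (δ : K)) ?_).subset ?_
    · intro x _ y _ hxy
      apply RingOfIntegers.coe_injective
      exact (div_left_inj' hδ0).mp hxy
    rintro x ⟨hx0, hxδ, hxv⟩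
    have hx0' : (x : K) ≠ 0 := RingOfIntegers.coe_ne_zero_iff.mpr hx0
    have hx'0 : (x : K) - (δ : K) ≠ 0 := by
      intro h0
      exact hxδ (RingOfIntegers.coe_injective (sub_eq_zero.mp h0))
    have h1 : 1 - (x : K) / (δ : K) = -(((x : K) - (δ : K)) / (δ : K)) := by
      field_simp
      ring
    refine ⟨div_ne_zero hx0' hδ0, ?_, ?_⟩
    · rw [h1]
      exact neg_ne_zero.mpr (div_ne_zero hx'0 hδ0)
    · intro v hv
      rw [Set.mem_union, not_or] at hv
      have h2 := hxv v hv.1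
      have h3 : (adv K v).v (δ : K) = 0 := by
        by_contra hne
        exact hv.2 hne
      have hE : ∀ z : K, z ≠ 0 → (adv K v).v z = 0 → (adv K v).E 0 z := fun z h0 h1 => ⟨h0, h1⟩
      refine ⟨?_, ?_⟩
      · have := ((hE _ hx0' h2.1).div (hE _ hδ0 h3)).2
        simpa using this
      · rw [h1, v_neg _ (div_ne_zero hx'0 hδ0)]
        have := ((hE _ hx'0 h2.2).div (hE _ hδ0 h3)).2
        simpa using this
  refine (hA1.union hA2).subset ?_
  rintro x ⟨hx0, hxδ, n, hn, hxn⟩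
  by_cases hroot : ∃ N : ℕ, 1 ≤ N ∧ (x : K) ^ N = ((x : K) - (δ : K)) ^ N
  · exact Or.inl ⟨hxδ, hroot⟩
  right
  refine ⟨hx0, hxδ, ?_⟩
  push Not at hroot
  have hx' : ((x - δ : 𝓞 K) : K) = (x : K) - (δ : K) := by push_cast; rfl
  have hx'0 : x - δ ≠ 0 := sub_ne_zero.mpr hxδ
  have hn1 : 1 ≤ n := by
    have : 1 ≤ 2 ^ (g2 + 1) := Nat.one_le_two_pow
    omega
  obtain ⟨e, Y, hY0, he, hxe⟩ := hrep n hn1 x hx0 (fun v hv => (hxn v (by
    rw [Set.Finite.mem_toFinset] at hv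
    exact hv)).1)
  obtain ⟨e', Y', hY'0, he', hxe'⟩ := hrep n hn1 (x - δ) hx'0 (fun v hv => by
    rw [Set.Finite.mem_toFinset] at hv
    rw [hx']
    exact (hxn v hv).2)
  have hn2 : n1 ≤ n := le_trans (Nat.le_add_right _ _) hn
  have hb := harch n hn2 x (x - δ) Y Y' e e' hx0 hx'0 hY0 hY'0 he he' hxe hxe'
    (by ring) (fun N hN => by rw [hx']; exact hroot N hN)
  -- the valuations vanish
  have hsize : Module.finrank ℚ K * Nat.size n ^ κ < n := by
    obtain ⟨g, hg⟩ : ∃ g, g = Nat.size n := ⟨_, rfl⟩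
    have hgg : g2 + 1 < g := by
      rw [hg, Nat.lt_size]
      omega
    have h2gn : 2 ^ (g - 1) ≤ n := by
      rw [← Nat.lt_size, ← hg]
      omega
    have h1 : 4 * Module.finrank ℚ K * g ^ κ ≤ 2 ^ g := hg2 g (by omega)
    have h2 : 2 ^ g = 2 * 2 ^ (g - 1) := by
      rw [← pow_succ']
      congr 1
      omega
    rw [← hg]
    have hD : 1 ≤ Module.finrank ℚ K := Module.finrank_pos
    have h3 : 1 ≤ Module.finrank ℚ K * g ^ κ := Nat.mul_pos hD (Nat.pow_pos (by omega))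
    rw [h2] at h1
    have h4 : 4 * (Module.finrank ℚ K * g ^ κ) ≤ 2 * 2 ^ (g - 1) := by linarith
    omega
  intro v hv
  constructor
  · by_contra hne
    have := val_small hx0 _ n (fun φ => (hb φ).1) v (hxn v hv).1 hne
    omega
  · by_contra hne
    have := val_small hx'0 _ n (fun φ => (hb φ).2) v (by rw [hx']; exact (hxn v hv).2)
      (by rw [hx']; exact hne)
    omega

/-- **Schinzel-Tijdeman with units**, with bounded denominators -/
theorem st (S : Set (HeightOneSpectrum (𝓞 K))) (hS : S.Finite) (N : ℕ) (hN : N ≠ 0) (β β' : K)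
    (hβ : β ≠ β') :
    ∃ n₀ : ℕ, {x : K | IsIntegral ℤ ((N : K) * x) ∧ x ≠ β ∧ x ≠ β' ∧ ∃ n : ℕ, n₀ ≤ n ∧ ∀ v ∉ S,
      (n : ℤ) ∣ (adv K v).v (x - β) ∧ (n : ℤ) ∣ (adv K v).v (x - β')}.Finite := by
  classical
  -- a common denominator
  obtain ⟨M, hM0, hMβ, hMβ'⟩ : ∃ M : ℕ, M ≠ 0 ∧ IsIntegral ℤ ((M : K) * β) ∧
      IsIntegral ℤ ((M : K) * β') := by
    have hex : ∀ y : K, ∃ M : ℕ, M ≠ 0 ∧ IsIntegral ℤ ((M : K) * y) := by
      intro y
      have h1 : IsAlgebraic ℤ y := by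
        have h2 : IsAlgebraic ℚ y := Algebra.IsAlgebraic.isAlgebraic y
        exact (IsFractionRing.isAlgebraic_iff ℤ ℚ K).2 h2
      obtain ⟨m, hm, hmy⟩ := h1.exists_integral_multiple
      refine ⟨m.natAbs, Int.natAbs_ne_zero.2 hm, ?_⟩
      rw [zsmul_eq_mul] at hmy
      rcases Int.natAbs_eq m with h | h
      · have e : ((m.natAbs : ℕ) : K) = (m : K) := by
          rw [← Int.cast_natCast, ← h]
        rw [e]
        exact hmy
      · have e : ((m.natAbs : ℕ) : K) = -(m : K) := by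
          rw [← Int.cast_natCast, ← Int.cast_neg]
          congr 1
          omega
        rw [e, neg_mul]
        exact hmy.neg
    obtain ⟨M₁, h1, h2⟩ := hex β
    obtain ⟨M₂, h3, h4⟩ := hex β'
    have hint : ∀ n : ℕ, IsIntegral ℤ (n : K) := fun n => by
      have := isIntegral_algebraMap (R := ℤ) (A := K) (x := (n : ℤ))
      simpa using this
    refine ⟨M₁ * M₂, mul_ne_zero h1 h3, ?_, ?_⟩
    · have e : ((M₁ * M₂ : ℕ) : K) * β = (M₂ : K) * ((M₁ : K) * β) := by push_cast; ring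
      rw [e]
      exact (hint _).mul h2
    · have e : ((M₁ * M₂ : ℕ) : K) * β' = (M₁ : K) * ((M₂ : K) * β') := by push_cast; ring
      rw [e]
      exact (hint _).mul h4
  have hNM : ((N * M : ℕ) : K) ≠ 0 := by exact_mod_cast mul_ne_zero hN hM0
  have hint : ∀ n : ℕ, IsIntegral ℤ (n : K) := fun n => by
    have := isIntegral_algebraMap (R := ℤ) (A := K) (x := (n : ℤ))
    simpa using this
  have hδi : IsIntegral ℤ (((N * M : ℕ) : K) * (β' - β)) := by
    have e : ((N * M : ℕ) : K) * (β' - β) = (N : K) * ((M : K) * β') - (N : K) * ((M : K) * β) := by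
      push_cast; ring
    rw [e]
    exact ((hint _).mul hMβ').sub ((hint _).mul hMβ)
  let δ : 𝓞 K := ⟨((N * M : ℕ) : K) * (β' - β), hδi⟩
  have hδ : (δ : K) = ((N * M : ℕ) : K) * (β' - β) := rfl
  have hδ0 : δ ≠ 0 := by
    intro h0
    have h1 : (δ : K) = 0 := by rw [h0]; simp
    rw [hδ] at h1
    rcases mul_eq_zero.mp h1 with h2 | h2
    · exact hNM h2
    · exact hβ (sub_eq_zero.mp h2).symm
  obtain ⟨n₀, hfin⟩ := st_int (S ∪ {v | (adv K v).v ((N * M : ℕ) : K) ≠ 0})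
    (hS.union (Pool.Agent.K4H56.IF.supp_finite hNM)) δ hδ0
  refine ⟨n₀, ?_⟩
  refine (hfin.image (fun y : 𝓞 K => (y : K) / ((N * M : ℕ) : K) + β)).subset ?_
  rintro x ⟨hxi, hxβ, hxβ', n, hn, hxn⟩
  have hyi : IsIntegral ℤ (((N * M : ℕ) : K) * (x - β)) := by
    have e : ((N * M : ℕ) : K) * (x - β) = (M : K) * ((N : K) * x) - (N : K) * ((M : K) * β) := by
      push_cast; ring
    rw [e]
    exact ((hint _).mul hxi).sub ((hint _).mul hMβ)
  let y : 𝓞 K := ⟨((N * M : ℕ) : K) * (x - β), hyi⟩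
  have hy : (y : K) = ((N * M : ℕ) : K) * (x - β) := rfl
  have hyδ : (y : K) - (δ : K) = ((N * M : ℕ) : K) * (x - β') := by rw [hy, hδ]; ring
  have hx1 : x - β ≠ 0 := sub_ne_zero.mpr hxβ
  have hx2 : x - β' ≠ 0 := sub_ne_zero.mpr hxβ'
  refine ⟨y, ⟨?_, ?_, n, hn, ?_⟩, ?_⟩
  · apply RingOfIntegers.coe_ne_zero_iff.mp
    show (y : K) ≠ 0
    rw [hy]
    exact mul_ne_zero hNM hx1
  · intro h0
    have h1 : (y : K) - (δ : K) = 0 := by rw [h0, sub_self]
    rw [hyδ] at h1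
    exact mul_ne_zero hNM hx2 h1
  · intro v hv
    rw [Set.mem_union, not_or] at hv
    have h3 : (adv K v).v ((N * M : ℕ) : K) = 0 := by
      by_contra hne
      exact hv.2 hne
    rw [hyδ, hy, (adv K v).mul' _ _ hNM hx1, (adv K v).mul' _ _ hNM hx2, h3, zero_add, zero_add]
    exact hxn v hv.1
  · simp only
    rw [hy]
    field_simp
    ring

end Run7.h197.ST
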