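import Pool.Agent.Run7.h197.ST.Arch
import Pool.Agent.Run7.h197.PB.Ind
import Pool.Agent.Y673.Loc.NF

/-!
Two integers of a number field which are `n`-th powers up to units outside of a finite set and
whose quotient is close to `1` at a prime ideal.
-/

set_option autoImplicit false

namespace Run7.h197.ST

open Finset NumberField IsDedekindDomain Run7.h197.BK Run7.h197.PB Pool.Agent.Y673.Loc
open Pool.Agent.Y673.Loc.ZV
open Pool.Agent.Y913.Bk (PolyB)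

variable {K : Type} [Field K] [NumberField K]

/-- the p-adic bound for arbitrary index types -/
theorem PBd.transfer {m κ g0 : ℕ} (h : PBd K m κ g0) {τ : Type} [Fintype τ]
    (hτ : Fintype.card τ = m) (g : ℕ) (hg : g0 ≤ g) (H : ℕ) (hH : 1 ≤ H)
    (v : HeightOneSpectrum (𝓞 K)) (hv : Ideal.absNorm v.asIdeal ≤ 2 ^ g)
    (a c : Option τ → 𝓞 K) (b : Option τ → ℤ)
    (hcv : ∀ j, c j ∉ v.asIdeal) (hac : ∀ j, a j - c j ∈ v.asIdeal)
    (ha : ∀ (φ : K →+* ℂ) j, ‖φ (a j : K)‖ ≤ 2 ^ (g * (j.elim H (fun _ => 1) : ℕ)))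
    (hc : ∀ (φ : K →+* ℂ) j, ‖φ (c j : K)‖ ≤ 2 ^ (g * (j.elim H (fun _ => 1) : ℕ)))
    (hb0 : b none ≠ 0) (hbg : |b none| ≤ 2 ^ g) (hb : ∀ i : τ, |b (some i)| ≤ g * |b none|)
    (hpp : ∀ p r : ℕ, p.Prime → (p : 𝓞 K) ∈ v.asIdeal → ((p ^ r : ℕ) : ℤ) ∣ b none → p ^ r ≤ g)
    (hnt : ∀ N : ℕ, 1 ≤ N → (∏ j, ((a j : K) / (c j : K)) ^ (b j)) ^ N ≠ 1) :
    pz a c b - pz c a b ∉ v.asIdeal ^ (g ^ κ * H) := by
  let e : Fin m ≃ τ := (Fintype.equivFinOfCardEq hτ).symm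
  let E : Option (Fin m) ≃ Option τ := Equiv.optionCongr e
  have hpz : ∀ a c : Option τ → 𝓞 K, pz (a ∘ E) (c ∘ E) (b ∘ E) = pz a c b := by
    intro a c
    unfold pz
    exact Fintype.prod_equiv E _ _ (fun j => rfl)
  have hel : ∀ j, ((E j).elim H (fun _ => 1) : ℕ) = (j.elim H (fun _ => 1) : ℕ) := by
    intro j
    rcases j with _ | j
    · rfl
    · rfl
  rw [← hpz a c, ← hpz c a]
  apply h g hg H hH v hv (a ∘ E) (c ∘ E) (b ∘ E) (fun j => hcv _) (fun j => hac _)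
  · intro φ j
    have := ha φ (E j)
    rwa [hel] at this
  · intro φ j
    have := hc φ (E j)
    rwa [hel] at this
  · exact hb0
  · exact hbg
  · intro i; exact hb (e i)
  · exact hpp
  · intro N hN
    have e1 : ∏ j, (((a ∘ E) j : K) / ((c ∘ E) j : K)) ^ ((b ∘ E) j) =
        ∏ j, ((a j : K) / (c j : K)) ^ (b j) := Fintype.prod_equiv E _ _ (fun j => rfl)
    rw [e1]
    exact hnt N hN

/-- Fermat's little theorem -/
theorem fermat (v : HeightOneSpectrum (𝓞 K)) {y : 𝓞 K} (hy : y ∉ v.asIdeal) :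
    y ^ (Ideal.absNorm v.asIdeal - 1) - 1 ∈ v.asIdeal := by
  classical
  have hmax : v.asIdeal.IsMaximal := v.isMaximal
  letI : Field (𝓞 K ⧸ v.asIdeal) := Ideal.Quotient.field v.asIdeal
  obtain ⟨hfin, hcard⟩ := card_quot v 1
  rw [pow_one, pow_one] at hcard
  have hne : Ideal.absNorm v.asIdeal ≠ 0 := by
    rw [Ne, Ideal.absNorm_eq_zero_iff]
    exact v.ne_bot
  haveI : Finite (𝓞 K ⧸ v.asIdeal) := by
    apply Nat.finite_of_card_ne_zero
    rw [hcard]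
    exact hne
  haveI : Fintype (𝓞 K ⧸ v.asIdeal) := Fintype.ofFinite _
  rw [← Ideal.Quotient.eq_zero_iff_mem, map_sub, map_pow, map_one, sub_eq_zero, ← hcard,
    Nat.card_eq_fintype_card]
  apply FiniteField.pow_card_sub_one_eq_one
  rw [Ne, Ideal.Quotient.eq_zero_iff_mem]
  exact hy

/-- **the p-adic estimate** -/
theorem padicS (v : HeightOneSpectrum (𝓞 K)) (h : ℕ) (hh : 1 ≤ h) {J : Type} [Fintype J]
    (γ : J → 𝓞 K) (hγ0 : ∀ j, γ j ≠ 0) (C d : ℕ) :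
    ∃ κ n₀ : ℕ, ∀ n, n₀ ≤ n → (∀ p r : ℕ, p.Prime → (p : 𝓞 K) ∈ v.asIdeal → p ^ r ∣ n →
        p ^ r ≤ Nat.size n) →
      ∀ (X : ℕ) (x x' Y Y' : 𝓞 K) (e e' : J → ℕ), x ≠ 0 → x' ≠ 0 →
      Y ∉ v.asIdeal → Y' ∉ v.asIdeal → (∀ j, e j < n) → (∀ j, e' j < n) →
      (∀ j, γ j ∈ v.asIdeal → e j = e' j) →
      (x : K) ^ h = (∏ j, (γ j : K) ^ (e j)) * (Y : K) ^ n →
      (x' : K) ^ h = (∏ j, (γ j : K) ^ (e' j)) * (Y' : K) ^ n →
      (∀ φ : K →+* ℂ, ‖φ (x : K)‖ ≤ 2 ^ (C * X) ∧ ‖φ (x' : K)‖ ≤ 2 ^ (C * X)) →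
      (∀ N : ℕ, 1 ≤ N → (x : K) ^ N ≠ (x' : K) ^ N) →
      x - x' ∈ v.asIdeal ^ X → x' ∉ v.asIdeal ^ (d + 1) → X ≤ Nat.size n ^ κ := by
  classical
  obtain ⟨G, c₀, hc₀, hc₁, hγc, hG₀, hγG, -⟩ := exists_bounds γ hγ0
  obtain ⟨κ, g0, hPB⟩ := PB_all K (Fintype.card J)
  obtain ⟨q1, hq1⟩ : ∃ q1, q1 = Ideal.absNorm v.asIdeal - 1 := ⟨_, rfl⟩
  obtain ⟨g2, hg2⟩ := ((PolyB.const (4 * (h * C))).mul (PolyB.id.pow κ)).le_two_pow
  obtain ⟨g1, hg1⟩ : ∃ g1, g1 = g0 + g2 + G * q1 + q1 + G + d * (h * q1) +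
    Ideal.absNorm v.asIdeal + 20 := ⟨_, rfl⟩
  refine ⟨κ + 2, 2 ^ g1, ?_⟩
  intro n hn hpp X x x' Y Y' e e' hx0 hx'0 hYv hY'v he he' hee hx hx' hX hroot hclose hx'd
  obtain ⟨g, hg⟩ : ∃ g, g = Nat.size n := ⟨_, rfl⟩
  rw [← hg] at hpp ⊢
  have hgg1 : g1 < g := by
    rw [hg, Nat.lt_size]
    exact hn
  have hn2g : n < 2 ^ g := by rw [hg]; exact Nat.lt_size_self n
  have h2gn : 2 ^ (g - 1) ≤ n := by
    rw [← Nat.lt_size, ← hg]
    omega
  have hn1 : 1 ≤ n := le_trans Nat.one_le_two_pow hn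
  have hpoly : 2 * (h * C) * g ^ κ ≤ n := by
    have h1 : 4 * (h * C) * g ^ κ ≤ 2 ^ g := hg2 g (by omega)
    have h2 : 2 ^ g = 2 * 2 ^ (g - 1) := by
      rw [← pow_succ']
      congr 1
      omega
    rw [h2] at h1
    have h3 : 2 * (2 * (h * C) * g ^ κ) ≤ 2 * 2 ^ (g - 1) := by linarith
    omega
  have hgκ : 1 ≤ g ^ κ := Nat.one_le_pow _ _ (by omega)
  have hNv : 2 ≤ Ideal.absNorm v.asIdeal := by
    have h1 : Ideal.absNorm v.asIdeal ≠ 0 := by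
      rw [Ne, Ideal.absNorm_eq_zero_iff]
      exact v.ne_bot
    have h2 : Ideal.absNorm v.asIdeal ≠ 1 := by
      rw [Ne, Ideal.absNorm_eq_one_iff]
      exact v.isPrime.ne_top
    omega
  have hq11 : 1 ≤ q1 := by omega
  have hY0 : Y ≠ 0 := fun h0 => hYv (by rw [h0]; exact v.asIdeal.zero_mem)
  have hY'0 : Y' ≠ 0 := fun h0 => hY'v (by rw [h0]; exact v.asIdeal.zero_mem)
  -- the unit part of the fixed numbers
  obtain ⟨γ', hγ'⟩ : ∃ γ' : J → 𝓞 K, ∀ j, γ' j = if γ j ∈ v.asIdeal then 1 else γ j :=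
    ⟨_, fun _ => rfl⟩
  have hγ'v : ∀ j, γ' j ∉ v.asIdeal := by
    intro j
    rw [hγ']
    split_ifs with h1
    · intro h2
      exact v.isPrime.ne_top ((Ideal.eq_top_iff_one _).2 h2)
    · exact h1
  have hγ'0 : ∀ j, γ' j ≠ 0 := fun j h0 => hγ'v j (by rw [h0]; exact v.asIdeal.zero_mem)
  have hγ'G : ∀ (φ : K →+* ℂ) j, ‖φ (γ' j : K)‖ ≤ 2 ^ G := by
    intro φ j
    rw [hγ']
    split_ifs with h1
    · have : φ ((1 : 𝓞 K) : K) = 1 := by simp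
      rw [this, norm_one]
      exact one_le_pow₀ (by norm_num)
    · exact hγG φ j
  -- the data
  let aa : Option J → 𝓞 K := fun i => i.elim (Y ^ q1) (fun j => γ' j ^ q1)
  let cc : Option J → 𝓞 K := fun i => i.elim (Y' ^ q1) (fun _ => 1)
  let b : Option J → ℤ := fun i => i.elim (n : ℤ) (fun j => (e j : ℤ) - (e' j : ℤ))
  have hYK : (Y : K) ≠ 0 := RingOfIntegers.coe_ne_zero_iff.mpr hY0
  have hY'K : (Y' : K) ≠ 0 := RingOfIntegers.coe_ne_zero_iff.mpr hY'0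
  have hxK : (x : K) ≠ 0 := RingOfIntegers.coe_ne_zero_iff.mpr hx0
  have hx'K : (x' : K) ≠ 0 := RingOfIntegers.coe_ne_zero_iff.mpr hx'0
  have hγK : ∀ j, (γ j : K) ≠ 0 := fun j => RingOfIntegers.coe_ne_zero_iff.mpr (hγ0 j)
  have hγ'K : ∀ j, (γ' j : K) ≠ 0 := fun j => RingOfIntegers.coe_ne_zero_iff.mpr (hγ'0 j)
  -- the product
  have hprod : ∏ j, ((aa j : K) / (cc j : K)) ^ (b j) = ((x : K) / (x' : K)) ^ (h * q1) := by
    rw [Fintype.prod_option]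
    simp only [aa, cc, b, Option.elim_none, Option.elim_some]
    have e1 : (((Y ^ q1 : 𝓞 K) : K) / ((Y' ^ q1 : 𝓞 K) : K)) ^ (n : ℤ) =
        (((Y : K) ^ n) / ((Y' : K) ^ n)) ^ q1 := by
      have e5 : ((Y ^ q1 : 𝓞 K) : K) = (Y : K) ^ q1 := map_pow _ _ _
      have e6 : ((Y' ^ q1 : 𝓞 K) : K) = (Y' : K) ^ q1 := map_pow _ _ _
      rw [zpow_natCast, e5, e6, ← div_pow, ← div_pow, ← pow_mul, ← pow_mul, mul_comm n q1]
    have e2 : ∀ j, (((γ' j ^ q1 : 𝓞 K) : K) / ((1 : 𝓞 K) : K)) ^ ((e j : ℤ) - (e' j : ℤ)) =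
        (((γ j : K) ^ (e j)) / ((γ j : K) ^ (e' j))) ^ q1 := by
      intro j
      have e3 : ((γ' j ^ q1 : 𝓞 K) : K) = (γ' j : K) ^ q1 := map_pow _ _ _
      have e4 : ((1 : 𝓞 K) : K) = 1 := map_one _
      rw [e3, e4, div_one, ← zpow_natCast, ← zpow_mul, mul_comm, zpow_mul, zpow_natCast]
      congr 1
      rw [zpow_sub₀ (hγ'K j), zpow_natCast, zpow_natCast]
      by_cases h1 : γ j ∈ v.asIdeal
      · rw [hee j h1, div_self (pow_ne_zero _ (hγ'K j)), div_self (pow_ne_zero _ (hγK j))]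
      · have h2 : γ' j = γ j := by rw [hγ', if_neg h1]
        rw [h2]
    rw [e1, Finset.prod_congr rfl fun j _ => e2 j, Finset.prod_pow, ← mul_pow, pow_mul, div_pow,
      hx, hx', Finset.prod_div_distrib]
    congr 1
    have h4 : ∏ j, (γ j : K) ^ (e' j) ≠ 0 :=
      Finset.prod_ne_zero_iff.mpr (fun j _ => pow_ne_zero _ (hγK j))
    field_simp
  have hnt : ∀ N : ℕ, 1 ≤ N → (∏ j, ((aa j : K) / (cc j : K)) ^ (b j)) ^ N ≠ 1 := by
    intro N hN h1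
    rw [hprod, ← pow_mul, div_pow, div_eq_one_iff_eq (pow_ne_zero _ hx'K)] at h1
    exact hroot (h * q1 * N) (Nat.mul_pos (Nat.mul_pos hh hq11) hN) h1
  obtain ⟨H, hH⟩ : ∃ H, H = G + (h * (C * X) / n + 1) := ⟨_, rfl⟩
  have hYb : ∀ ψ : K →+* ℂ, ‖ψ (Y : K)‖ ≤ 2 ^ H := fun ψ => by
    rw [hH]
    exact root_bound γ G c₀ hc₀ hc₁ hγc hG₀ n (C * X) hn1 x Y e he hx ψ (hX ψ).1
  have hY'b : ∀ ψ : K →+* ℂ, ‖ψ (Y' : K)‖ ≤ 2 ^ H := fun ψ => by
    rw [hH]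
    exact root_bound γ G c₀ hc₀ hc₁ hγc hG₀ n (C * X) hn1 x' Y' e' he' hx' ψ (hX ψ).2
  have hpow : ∀ (ψ : K →+* ℂ) (z : 𝓞 K), ‖ψ (z : K)‖ ≤ 2 ^ H →
      ‖ψ ((z ^ q1 : 𝓞 K) : K)‖ ≤ 2 ^ (g * H) := by
    intro ψ z hz
    have e3 : ((z ^ q1 : 𝓞 K) : K) = (z : K) ^ q1 := map_pow _ _ _
    rw [e3, map_pow, norm_pow]
    calc ‖ψ (z : K)‖ ^ q1 ≤ ((2 : ℝ) ^ H) ^ q1 := pow_le_pow_left₀ (norm_nonneg _) hz _
      _ = 2 ^ (H * q1) := by rw [← pow_mul]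
      _ ≤ 2 ^ (g * H) := by
          apply pow_le_pow_right₀ (by norm_num)
          rw [mul_comm]
          exact Nat.mul_le_mul_right _ (by omega)
  have hH1 : 1 ≤ H := by
    rw [hH, ← add_assoc]
    exact Nat.le_add_left 1 _
  have hone' : ∀ ψ : K →+* ℂ, ψ ((1 : 𝓞 K) : K) = 1 := fun ψ => by simp
  have hone : (1 : ℝ) ≤ 2 ^ (g * 1) := one_le_pow₀ (by norm_num)
  have hlow := PBd.transfer hPB (τ := J) rfl g (by omega) H hH1 v
    ((by omega : Ideal.absNorm v.asIdeal ≤ g).trans Nat.lt_two_pow_self.le) aa cc b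
    (by
      rintro (_ | j)
      · show Y' ^ q1 ∉ v.asIdeal
        intro h1
        exact hY'v (v.isPrime.mem_of_pow_mem _ h1)
      · show (1 : 𝓞 K) ∉ v.asIdeal
        intro h2
        exact v.isPrime.ne_top ((Ideal.eq_top_iff_one _).2 h2))
    (by
      rintro (_ | j)
      · show Y ^ q1 - Y' ^ q1 ∈ v.asIdeal
        have h1 := v.asIdeal.sub_mem (fermat v hYv) (fermat v hY'v)
        rw [← hq1, sub_sub_sub_cancel_right] at h1
        exact h1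
      · show γ' j ^ q1 - 1 ∈ v.asIdeal
        rw [hq1]
        exact fermat v (hγ'v j))
    (by
      rintro ψ (_ | j)
      · exact hpow ψ Y (hYb ψ)
      · show ‖ψ ((γ' j ^ q1 : 𝓞 K) : K)‖ ≤ 2 ^ (g * 1)
        have e3 : ((γ' j ^ q1 : 𝓞 K) : K) = (γ' j : K) ^ q1 := map_pow _ _ _
        rw [e3, map_pow, norm_pow]
        calc ‖ψ (γ' j : K)‖ ^ q1 ≤ ((2 : ℝ) ^ G) ^ q1 :=
              pow_le_pow_left₀ (norm_nonneg _) (hγ'G ψ j) _
          _ = 2 ^ (G * q1) := by rw [← pow_mul]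
          _ ≤ 2 ^ (g * 1) := pow_le_pow_right₀ (by norm_num) (by omega))
    (by
      rintro ψ (_ | j)
      · exact hpow ψ Y' (hY'b ψ)
      · show ‖ψ ((1 : 𝓞 K) : K)‖ ≤ 2 ^ (g * 1)
        rw [hone', norm_one]
        exact hone)
    (by
      show (n : ℤ) ≠ 0
      exact_mod_cast (by omega : n ≠ 0))
    (by
      show |(n : ℤ)| ≤ 2 ^ g
      rw [Nat.abs_cast]
      exact_mod_cast hn2g.le)
    (by
      intro j
      show |(e j : ℤ) - (e' j : ℤ)| ≤ g * |(n : ℤ)|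
      have h8 := he j
      have h9 := he' j
      have h10 : |(e j : ℤ) - (e' j : ℤ)| ≤ n := by
        rw [abs_le]
        constructor <;> omega
      rw [Nat.abs_cast]
      refine h10.trans ?_
      exact_mod_cast Nat.le_mul_of_pos_left n (by omega : 0 < g))
    (by
      intro p r hp hpv hd
      have hd' : ((p ^ r : ℕ) : ℤ) ∣ (n : ℤ) := hd
      exact hpp p r hp hpv (Int.natCast_dvd_natCast.1 hd'))
    hnt
  -- the upper bound
  obtain ⟨A, hA⟩ : ∃ A, A = pz aa cc b := ⟨_, rfl⟩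
  obtain ⟨B, hB⟩ : ∃ B, B = pz cc aa b := ⟨_, rfl⟩
  rw [← hA, ← hB] at hlow
  have haa0 : ∀ j, aa j ≠ 0 := by
    rintro (_ | j)
    · exact pow_ne_zero _ hY0
    · exact pow_ne_zero _ (hγ'0 j)
  have hcc0 : ∀ j, cc j ≠ 0 := by
    rintro (_ | j)
    · exact pow_ne_zero _ hY'0
    · exact one_ne_zero
  have hB0 : B ≠ 0 := by rw [hB]; exact pz_ne_zero hcc0 haa0 b
  have hBK : (B : K) ≠ 0 := RingOfIntegers.coe_ne_zero_iff.mpr hB0
  have hAB : A * x' ^ (h * q1) = B * x ^ (h * q1) := by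
    apply RingOfIntegers.coe_injective
    have h1 : (A : K) / (B : K) = ((x : K) / (x' : K)) ^ (h * q1) := by
      rw [← hprod, hA, hB]
      exact pz_div (algebraMap (𝓞 K) K) aa cc b
    rw [div_pow, div_eq_div_iff hBK (pow_ne_zero _ hx'K)] at h1
    show algebraMap (𝓞 K) K _ = algebraMap (𝓞 K) K _
    rw [map_mul, map_mul, map_pow, map_pow]
    linear_combination h1
  have hABne : A - B ≠ 0 := by
    intro h0
    rw [sub_eq_zero.1 h0] at hAB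
    have h1 := mul_left_cancel₀ hB0 hAB
    apply hroot (h * q1) (Nat.mul_pos hh hq11)
    have h2 := congrArg (algebraMap (𝓞 K) K) h1
    rw [map_pow, map_pow] at h2
    exact h2.symm
  have hmemX : (A - B) * x' ^ (h * q1) ∈ v.asIdeal ^ X := by
    have e1 : (A - B) * x' ^ (h * q1) = B * (x ^ (h * q1) - x' ^ (h * q1)) := by
      rw [sub_mul, hAB, mul_sub]
    rw [e1]
    apply Ideal.mul_mem_left
    obtain ⟨z, hz⟩ := sub_dvd_pow_sub_pow x x' (h * q1)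
    rw [hz]
    exact Ideal.mul_mem_right _ _ hclose
  have hxp0 : x' ^ (h * q1) ≠ 0 := pow_ne_zero _ hx'0
  have h1 := (le_adv_iff K v _ (mul_ne_zero hABne hxp0) X).2 hmemX
  rw [map_mul, (adv K v).mul' _ _ (RingOfIntegers.coe_ne_zero_iff.mpr hABne)
    (RingOfIntegers.coe_ne_zero_iff.mpr hxp0), map_pow,
    ((E_of_ne (w := adv K v) hx'K).pow (h * q1)).2] at h1
  have h2 : (adv K v).v (x' : K) ≤ d := by
    by_contra hcon
    push Not at hcon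
    apply hx'd
    rw [← le_adv_iff K v x' hx'0]
    have h9 : (d : ℤ) + 1 ≤ (adv K v).v (x' : K) := by omega
    calc ((d + 1 : ℕ) : ℤ) = (d : ℤ) + 1 := by push_cast; rfl
      _ ≤ _ := h9
  have h3 : ((h * q1 : ℕ) : ℤ) * (adv K v).v (x' : K) ≤ ((d * (h * q1) : ℕ) : ℤ) := by
    push_cast
    have h4 : (0 : ℤ) ≤ (h : ℤ) * q1 := by positivity
    nlinarith
  have h4 : A - B ∈ v.asIdeal ^ (X - d * (h * q1)) := by
    rw [← le_adv_iff K v _ hABne]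
    have h5 : ((X - d * (h * q1) : ℕ) : ℤ) ≤ max 0 ((X : ℤ) - ((d * (h * q1) : ℕ) : ℤ)) := by
      omega
    have h6 := adv_nonneg K v _ hABne
    have h7 : (X : ℤ) - ((d * (h * q1) : ℕ) : ℤ) ≤ (adv K v).v (algebraMap (𝓞 K) K (A - B)) := by
      linarith
    exact h5.trans (max_le h6 h7)
  have h5 : X < g ^ κ * H + d * (h * q1) := by
    by_contra hcon
    push Not at hcon
    exact hlow (Ideal.pow_le_pow_right (by omega) h4)
  have hhalf : 2 * (g ^ κ * (h * (C * X) / n)) ≤ X := by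
    rcases Nat.eq_zero_or_pos C with hC0 | hC0
    · rw [hC0, zero_mul, mul_zero, Nat.zero_div, mul_zero, mul_zero]
      exact Nat.zero_le _
    have h1 : n * (h * (C * X) / n) ≤ h * (C * X) := Nat.mul_div_le _ _
    have h2 : h * C * (2 * (g ^ κ * (h * (C * X) / n))) ≤ h * C * X := by
      calc h * C * (2 * (g ^ κ * (h * (C * X) / n))) =
            (2 * (h * C) * g ^ κ) * (h * (C * X) / n) := by ring
        _ ≤ n * (h * (C * X) / n) := Nat.mul_le_mul_right _ hpoly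
        _ ≤ h * (C * X) := h1
        _ = h * C * X := by ring
    exact Nat.le_of_mul_le_mul_left h2 (Nat.mul_pos hh hC0)
  rw [hH] at h5
  have h6 : g ^ κ * (G + (h * (C * X) / n + 1)) = g ^ κ * (G + 1) +
    g ^ κ * (h * (C * X) / n) := by ring
  rw [h6] at h5
  have h7 : X ≤ 2 * (d * (h * q1) + g ^ κ * (G + 1)) := by
    generalize g ^ κ * (h * (C * X) / n) = A' at *
    generalize g ^ κ * (G + 1) = B' at *
    omega
  calc X ≤ 2 * (d * (h * q1) + g ^ κ * (G + 1)) := h7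
    _ ≤ 2 * (g ^ κ * g + g ^ κ * g) := by
        have h2 : d * (h * q1) ≤ g := by omega
        have h3 : G + 1 ≤ g := by omega
        have h4 : g ≤ g ^ κ * g := Nat.le_mul_of_pos_left _ (by omega)
        have h5 : g ^ κ * (G + 1) ≤ g ^ κ * g := Nat.mul_le_mul_left _ h3
        omega
    _ = g ^ κ * g * 4 := by ring
    _ ≤ g ^ κ * g * g := Nat.mul_le_mul_left _ (by omega)
    _ = g ^ (κ + 2) := by ring

end Run7.h197.ST
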