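import Pool.Agent.Run7.h197.ST.RepS
import Pool.Agent.Run7.h197.ST.ArchS
import Pool.Agent.Run7.h197.ST.PadicS
import Pool.Agent.Run7.h197.ST.Main

/-!
The theorem of Schinzel and Tijdeman for `S`-integers of number fields: exponents with small prime
powers below `S`.
-/

set_option autoImplicit false

namespace Run7.h197.ST

open Finset NumberField IsDedekindDomain Pool.Agent.H691R3 Pool.Agent.Y673.Loc Pool.Agent.Y673.Cnt
open Pool.Agent.Y673.Loc.ZV
open Pool.Agent.Y913.Bk (PolyB)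

variable {K : Type} [Field K] [NumberField K]

theorem int_of_val {x : K} (hx : ∀ v : HeightOneSpectrum (𝓞 K), (adv K v).G 0 x) :
    ∃ y : 𝓞 K, (y : K) = x := by
  by_cases hx0 : x = 0
  · exact ⟨0, by rw [hx0]; exact map_zero _⟩
  have h1 := HeightOneSpectrum.mem_integers_of_valuation_le_one (R := 𝓞 K) K x (fun v => by
    have h2 : v.valuation K x ≠ 0 := (Valuation.ne_zero_iff _).2 hx0
    have h3 : 0 ≤ -WithZero.log (v.valuation K x) := (hx v).resolve_left hx0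
    rw [← WithZero.log_le_log h2 one_ne_zero, WithZero.log_one]
    omega)
  obtain ⟨y, hy⟩ := h1
  exact ⟨y, hy⟩

/-- the size of an `S`-integer -/
theorem exists_size (S : Finset (HeightOneSpectrum (𝓞 K))) (x : K) :
    ∃ X : ℕ, (∀ φ : K →+* ℂ, ‖φ x‖ ≤ 2 ^ X) ∧ (∀ v ∈ S, -(adv K v).v x ≤ X) ∧
      (X = 0 ∨ (∃ φ : K →+* ℂ, (2 : ℝ) ^ (X - 1) < ‖φ x‖) ∨
        ∃ v ∈ S, (adv K v).v x = -(X : ℤ)) := by
  classical
  have hex : ∃ X : ℕ, (∀ φ : K →+* ℂ, ‖φ x‖ ≤ 2 ^ X) ∧ (∀ v ∈ S, -(adv K v).v x ≤ X) := by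
    obtain ⟨m, hm⟩ := exists_nat_ge (∑ φ : K →+* ℂ, ‖φ x‖)
    refine ⟨m + ∑ v ∈ S, ((adv K v).v x).natAbs, fun φ => ?_, fun v hv => ?_⟩
    · have h1 : ‖φ x‖ ≤ ∑ φ : K →+* ℂ, ‖φ x‖ :=
        Finset.single_le_sum (f := fun φ : K →+* ℂ => ‖φ x‖) (fun _ _ => norm_nonneg _)
          (Finset.mem_univ φ)
      have h2 : (m : ℝ) ≤ 2 ^ m := by exact_mod_cast Nat.lt_two_pow_self.le
      have h3 : (2 : ℝ) ^ m ≤ 2 ^ (m + ∑ v ∈ S, ((adv K v).v x).natAbs) :=
        pow_le_pow_right₀ (by norm_num) (by omega)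
      linarith
    · have h1 : ((adv K v).v x).natAbs ≤ ∑ v ∈ S, ((adv K v).v x).natAbs :=
        Finset.single_le_sum (f := fun v => ((adv K v).v x).natAbs) (fun _ _ => Nat.zero_le _) hv
      rw [Nat.cast_add]
      omega
  refine ⟨Nat.find hex, (Nat.find_spec hex).1, (Nat.find_spec hex).2, ?_⟩
  obtain ⟨X, hX⟩ : ∃ X, X = Nat.find hex := ⟨_, rfl⟩
  rw [← hX]
  have hspec := Nat.find_spec hex
  rw [← hX] at hspec
  by_cases hX0 : X = 0
  · exact Or.inl hX0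
  right
  have hmin := Nat.find_min hex (m := X - 1) (by omega)
  by_cases h1 : ∃ φ : K →+* ℂ, (2 : ℝ) ^ (X - 1) < ‖φ x‖
  · exact Or.inl h1
  right
  push Not at h1
  by_contra h2
  push Not at h2
  apply hmin
  refine ⟨h1, fun v hv => ?_⟩
  have h3 := h2 v hv
  have h4 := hspec.2 v hv
  omega

/-- `x` and `x - δ` are units outside of `S` -/
theorem sunit_fin (S : Set (HeightOneSpectrum (𝓞 K))) (hS : S.Finite) {δ : K} (hδ0 : δ ≠ 0) :
    {x : K | x ≠ 0 ∧ x ≠ δ ∧ ∀ v ∉ S, (adv K v).v x = 0 ∧ (adv K v).v (x - δ) = 0}.Finite := by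
  have hsu := Pool.Agent.K4H56.IF.su (S ∪ {v | (adv K v).v δ ≠ 0})
    (hS.union (Pool.Agent.K4H56.IF.supp_finite hδ0))
  refine (hsu.preimage (f := fun x : K => x / δ) ?_).subset ?_
  · intro x _ y _ hxy
    exact (div_left_inj' hδ0).mp hxy
  rintro x ⟨hx0, hxδ, hxv⟩
  have hx'0 : x - δ ≠ 0 := sub_ne_zero.mpr hxδ
  have h1 : 1 - x / δ = -((x - δ) / δ) := by
    field_simp
    ring
  refine ⟨div_ne_zero hx0 hδ0, ?_, ?_⟩
  · rw [h1]
    exact neg_ne_zero.mpr (div_ne_zero hx'0 hδ0)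
  · intro v hv
    rw [Set.mem_union, not_or] at hv
    have h2 := hxv v hv.1
    have h3 : (adv K v).v δ = 0 := by
      by_contra hne
      exact hv.2 hne
    have hE : ∀ z : K, z ≠ 0 → (adv K v).v z = 0 → (adv K v).E 0 z := fun z h0 h1 => ⟨h0, h1⟩
    refine ⟨?_, ?_⟩
    · have := ((hE _ hx0 h2.1).div (hE _ hδ0 h3)).2
      simpa using this
    · rw [h1, v_neg _ (div_ne_zero hx'0 hδ0)]
      have := ((hE _ hx'0 h2.2).div (hE _ hδ0 h3)).2
      simpa using this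

/-- `x ^ N = (x - δ) ^ N` -/
theorem root_fin {δ : K} (hδ : δ ≠ 0) :
    {x : K | x ≠ δ ∧ ∃ N : ℕ, 1 ≤ N ∧ x ^ N = (x - δ) ^ N}.Finite := by
  refine ((roots_finite K).image (fun z => z * δ / (z - 1))).subset ?_
  rintro x ⟨hx, N, hN, hxN⟩
  have hx'0 : x - δ ≠ 0 := sub_ne_zero.mpr hx
  refine ⟨x / (x - δ), ⟨N, hN, ?_⟩, ?_⟩
  · rw [div_pow, hxN, div_self (pow_ne_zero _ hx'0)]
  · have h1 : x / (x - δ) - 1 = δ / (x - δ) := by
      field_simp
      ring
    simp only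
    rw [h1]
    field_simp

/-- **Schinzel-Tijdeman for `S`-integers**, exponents with small prime powers below `S` -/
theorem stS_int (S : Set (HeightOneSpectrum (𝓞 K))) (hS : S.Finite) (δ : 𝓞 K) (hδ : δ ≠ 0) :
    ∃ n₀ : ℕ, {x : K | (∀ v ∉ S, (adv K v).G 0 x) ∧ x ≠ 0 ∧ x ≠ (δ : K) ∧ ∃ n : ℕ, n₀ ≤ n ∧
      (∀ v ∈ S, ∀ p r : ℕ, p.Prime → (p : 𝓞 K) ∈ v.asIdeal → p ^ r ∣ n → p ^ r ≤ Nat.size n) ∧
      ∀ v ∉ S, (n : ℤ) ∣ (adv K v).v x ∧ (n : ℤ) ∣ (adv K v).v (x - (δ : K))}.Finite := by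
  classical
  have hδ0 : (δ : K) ≠ 0 := RingOfIntegers.coe_ne_zero_iff.mpr hδ
  obtain ⟨T, hT⟩ : ∃ T, T = hS.toFinset := ⟨_, rfl⟩
  have hTS : ∀ v, v ∈ T ↔ v ∈ S := by
    intro v
    rw [hT, Set.Finite.mem_toFinset]
  obtain ⟨h, r, ε, g, hh, hε, hg0, hgs, hgn, hrep⟩ := repS T
  obtain ⟨γ, hγd⟩ : ∃ γ : Fin r ⊕ {v // v ∈ T} → 𝓞 K, γ = Sum.elim ε (fun v => g v.1) := ⟨_, rfl⟩
  have hγ : ∀ j, γ j ≠ 0 := by
    rw [hγd]
    rintro (j | v)
    · exact (hε j).ne_zero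
    · exact RingOfIntegers.coe_ne_zero_iff.mp (hg0 v.1)
  -- bounds
  obtain ⟨G, c₀, -, -, -, -, hG, -⟩ := exists_bounds
    (fun j : Option {v // v ∈ T} => j.elim δ (fun v => g v.1)) (by
      rintro (_ | v)
      · exact hδ
      · exact RingOfIntegers.coe_ne_zero_iff.mp (hg0 v.1))
  have hGδ : ∀ φ : K →+* ℂ, ‖φ (δ : K)‖ ≤ 2 ^ G := fun φ => hG φ none
  have hGg : ∀ φ : K →+* ℂ, ∀ v ∈ T, ‖φ (g v : K)‖ ≤ 2 ^ G := fun φ v hv => hG φ (some ⟨v, hv⟩)
  obtain ⟨C, hC⟩ : ∃ C, C = G + 2 + G * T.card := ⟨_, rfl⟩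
  obtain ⟨κ₁, n₁, harch⟩ := archS h hh γ hγ C (G + 2)
  have hpad := fun v : HeightOneSpectrum (𝓞 K) => padicS v h hh γ hγ C h
  choose κ₂ n₂ hpadic using hpad
  obtain ⟨κ, hκ⟩ : ∃ κ, κ = κ₁ + ∑ v ∈ T, κ₂ v + 1 := ⟨_, rfl⟩
  obtain ⟨g2, hg2⟩ := ((PolyB.const (4 * (Module.finrank ℚ K * (C + G + 2)))).mul
    (PolyB.id.pow κ)).le_two_pow
  refine ⟨n₁ + ∑ v ∈ T, n₂ v + 2 ^ (g2 + G + h + 3), ?_⟩
  refine ((root_fin hδ0).union (sunit_fin S hS hδ0)).subset ?_
  rintro x ⟨hxG, hx0, hxδ, n, hn, hpp, hxn⟩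
  by_cases hroot : ∃ N : ℕ, 1 ≤ N ∧ x ^ N = (x - (δ : K)) ^ N
  · exact Or.inl ⟨hxδ, hroot⟩
  right
  refine ⟨hx0, hxδ, ?_⟩
  push Not at hroot
  have hx'0 : x - (δ : K) ≠ 0 := sub_ne_zero.mpr hxδ
  obtain ⟨s, hs⟩ : ∃ s, s = Nat.size n := ⟨_, rfl⟩
  have hnn : n₁ + ∑ v ∈ T, n₂ v ≤ n := le_trans (Nat.le_add_right _ _) hn
  have hsbig : g2 + G + h + 3 < s := by
    rw [hs, Nat.lt_size]
    omega
  have hsn : s ≤ n := by
    rw [hs]
    exact Nat.size_le.2 Nat.lt_two_pow_self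
  have hn1 : 1 ≤ n := by omega
  have hhn : h ≤ n := by omega
  obtain ⟨X, hXa, hXp, hXm⟩ := exists_size T x
  -- the denominator
  obtain ⟨k, hk⟩ : ∃ k : HeightOneSpectrum (𝓞 K) → ℕ,
      ∀ v, k v = ((-(adv K v).v x).toNat + (h - 1)) / h := ⟨_, fun _ => rfl⟩
  have hk1 : ∀ v, -(adv K v).v x ≤ (h : ℤ) * k v := by
    intro v
    have h1 := Nat.div_add_mod ((-(adv K v).v x).toNat + (h - 1)) h
    have h2 := Nat.mod_lt ((-(adv K v).v x).toNat + (h - 1)) (by omega : 0 < h)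
    rw [← hk v] at h1
    have h3 : (-(adv K v).v x).toNat ≤ h * k v := by omega
    have h4 : ((-(adv K v).v x).toNat : ℤ) ≤ (h : ℤ) * k v := by exact_mod_cast h3
    omega
  have hk2 : ∀ v, (h : ℤ) * k v < (-(adv K v).v x).toNat + h := by
    intro v
    have h1 := Nat.div_add_mod ((-(adv K v).v x).toNat + (h - 1)) h
    rw [← hk v] at h1
    have h3 : h * k v < (-(adv K v).v x).toNat + h := by omega
    exact_mod_cast h3
  have hkX : ∀ v ∈ T, k v ≤ X := by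
    intro v hv
    have h1 := hXp v hv
    rw [hk v]
    have h2 : (-(adv K v).v x).toNat ≤ X := by omega
    rw [← Nat.lt_succ_iff]
    apply Nat.div_lt_of_lt_mul
    have h3 : X ≤ h * X := Nat.le_mul_of_pos_left _ hh
    have h4 : h * X.succ = h * X + h := Nat.mul_succ _ _
    omega
  obtain ⟨w, hw⟩ : ∃ w : 𝓞 K, w = ∏ v ∈ T, g v ^ k v := ⟨_, rfl⟩
  have hwK : (w : K) = ∏ v ∈ T, (g v : K) ^ k v := by
    rw [hw]
    show algebraMap (𝓞 K) K _ = _
    rw [map_prod]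
    exact Finset.prod_congr rfl fun v _ => map_pow _ _ _
  have hwK0 : (w : K) ≠ 0 := by
    rw [hwK]
    exact Finset.prod_ne_zero_iff.mpr fun v _ => pow_ne_zero _ (hg0 v)
  have hw0 : w ≠ 0 := RingOfIntegers.coe_ne_zero_iff.mp hwK0
  have hwval : ∀ u, (adv K u).v (w : K) = if u ∈ T then (h : ℤ) * k u else 0 := by
    intro u
    rw [hwK, v_prod _ _ _ (fun v _ => pow_ne_zero _ (hg0 v))]
    have h1 : ∀ v ∈ T, (adv K u).v ((g v : K) ^ k v) = if u = v then (h : ℤ) * k v else 0 := by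
      intro v _
      rw [((E_of_ne (w := adv K u) (hg0 v)).pow _).2]
      split_ifs with huv
      · rw [huv, hgs v, mul_comm]
      · rw [hgn u v huv, mul_zero]
    rw [Finset.sum_congr rfl h1, Finset.sum_ite_eq]
  -- the integers
  obtain ⟨u, hu⟩ : ∃ u : 𝓞 K, (u : K) = x * (w : K) := by
    apply int_of_val
    intro v
    right
    rw [(adv K v).mul' _ _ hx0 hwK0, hwval v]
    by_cases hv : v ∈ T
    · rw [if_pos hv]
      have := hk1 v
      omega
    · rw [if_neg hv, add_zero]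
      exact (hxG v (fun h => hv ((hTS v).2 h))).resolve_left hx0
  obtain ⟨u', hu'⟩ : ∃ u' : 𝓞 K, u' = u - δ * w := ⟨_, rfl⟩
  have hu'K : (u' : K) = (x - (δ : K)) * (w : K) := by
    rw [hu']
    show algebraMap (𝓞 K) K _ = _
    rw [map_sub, map_mul]
    show (u : K) - (δ : K) * (w : K) = _
    rw [hu]
    ring
  have hu0 : u ≠ 0 := by
    apply RingOfIntegers.coe_ne_zero_iff.mp
    show (u : K) ≠ 0
    rw [hu]
    exact mul_ne_zero hx0 hwK0
  have hu'0 : u' ≠ 0 := by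
    apply RingOfIntegers.coe_ne_zero_iff.mp
    show (u' : K) ≠ 0
    rw [hu'K]
    exact mul_ne_zero hx'0 hwK0
  have huout : ∀ v ∉ S, (adv K v).v (u : K) = (adv K v).v x ∧
      (adv K v).v (u' : K) = (adv K v).v (x - (δ : K)) := by
    intro v hv
    rw [hu, hu'K, (adv K v).mul' _ _ hx0 hwK0, (adv K v).mul' _ _ hx'0 hwK0, hwval v,
      if_neg (fun h => hv ((hTS v).1 h)), add_zero, add_zero]
    exact ⟨rfl, rfl⟩
  obtain ⟨b, Y, hY0, hb, hYv, hrepu⟩ := hrep n hn1 u hu0 (fun v hv => by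
    rw [(huout v (fun h => hv ((hTS v).2 h))).1]
    exact (hxn v (fun h => hv ((hTS v).2 h))).1)
  obtain ⟨b', Y', hY'0, hb', hY'v, hrepu'⟩ := hrep n hn1 u' hu'0 (fun v hv => by
    rw [(huout v (fun h => hv ((hTS v).2 h))).2]
    exact (hxn v (fun h => hv ((hTS v).2 h))).2)
  obtain ⟨e, he⟩ : ∃ e : Fin r ⊕ {v // v ∈ T} → ℕ,
    e = Sum.elim b (fun v => ((adv K v.1).v (u : K) % n).toNat) := ⟨_, rfl⟩
  obtain ⟨e', he'⟩ : ∃ e' : Fin r ⊕ {v // v ∈ T} → ℕ,
    e' = Sum.elim b' (fun v => ((adv K v.1).v (u' : K) % n).toNat) := ⟨_, rfl⟩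
  have hmodlt : ∀ z : ℤ, (z % n).toNat < n := by
    intro z
    have hn0 : (n : ℤ) ≠ 0 := by exact_mod_cast (by omega : n ≠ 0)
    have h1 := Int.emod_nonneg z hn0
    have h2 := Int.emod_lt_of_pos z (by omega : (0 : ℤ) < n)
    omega
  have hen : ∀ j, e j < n := by
    rw [he]
    rintro (j | v)
    · exact hb j
    · exact hmodlt _
  have he'n : ∀ j, e' j < n := by
    rw [he']
    rintro (j | v)
    · exact hb' j
    · exact hmodlt _
  have hreq : (u : K) ^ h = (∏ j, (γ j : K) ^ (e j)) * (Y : K) ^ n := by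
    rw [hrepu, he, hγd, Fintype.prod_sum_type]
    rfl
  have hreq' : (u' : K) ^ h = (∏ j, (γ j : K) ^ (e' j)) * (Y' : K) ^ n := by
    rw [hrepu', he', hγd, Fintype.prod_sum_type]
    rfl
  -- sizes
  have hwsize : ∀ φ : K →+* ℂ, ‖φ (w : K)‖ ≤ 2 ^ (G * T.card * X) := by
    intro φ
    rw [hwK, map_prod, norm_prod]
    calc ∏ v ∈ T, ‖φ ((g v : K) ^ k v)‖ ≤ ∏ _v ∈ T, (2 : ℝ) ^ (G * X) := by
          apply Finset.prod_le_prod (fun _ _ => norm_nonneg _)
          intro v hv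
          rw [map_pow, norm_pow]
          calc ‖φ (g v : K)‖ ^ k v ≤ ((2 : ℝ) ^ G) ^ k v :=
                pow_le_pow_left₀ (norm_nonneg _) (hGg φ v hv) _
            _ = 2 ^ (G * k v) := by rw [← pow_mul]
            _ ≤ 2 ^ (G * X) :=
                pow_le_pow_right₀ (by norm_num) (Nat.mul_le_mul_left _ (hkX v hv))
      _ = 2 ^ (G * T.card * X) := by
          rw [Finset.prod_const, ← pow_mul]
          congr 1
          ring
  have hsz0 : ∀ φ : K →+* ℂ, ‖φ (u : K)‖ ≤ 2 ^ (G + X + 1 + G * T.card * X) ∧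
      ‖φ (u' : K)‖ ≤ 2 ^ (G + X + 1 + G * T.card * X) := by
    intro φ
    have h1 : ‖φ x‖ + ‖φ (δ : K)‖ ≤ 2 ^ (G + X + 1) := by
      have h2 := hXa φ
      have h3 := hGδ φ
      have h4 : (2 : ℝ) ^ X ≤ 2 ^ (G + X) := pow_le_pow_right₀ (by norm_num) (by omega)
      have h5 : (2 : ℝ) ^ G ≤ 2 ^ (G + X) := pow_le_pow_right₀ (by norm_num) (by omega)
      have h6 : (2 : ℝ) ^ (G + X) + 2 ^ (G + X) = 2 ^ (G + X + 1) := by rw [pow_succ]; ring
      linarith
    have h8 : ∀ z : K, ‖φ z‖ ≤ ‖φ x‖ + ‖φ (δ : K)‖ →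
        ‖φ (z * (w : K))‖ ≤ 2 ^ (G + X + 1 + G * T.card * X) := by
      intro z hz
      rw [map_mul, norm_mul, pow_add]
      exact mul_le_mul (hz.trans h1) (hwsize φ) (norm_nonneg _) (by positivity)
    constructor
    · rw [hu]
      apply h8
      linarith [norm_nonneg (φ (δ : K))]
    · rw [hu'K]
      apply h8
      rw [map_sub]
      exact norm_sub_le _ _
  have hsz : ∀ φ : K →+* ℂ, ‖φ (u : K)‖ ≤ 2 ^ (C * X + (G + 2)) ∧
      ‖φ (u' : K)‖ ≤ 2 ^ (C * X + (G + 2)) := by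
    intro φ
    have h1 : (2 : ℝ) ^ (G + X + 1 + G * T.card * X) ≤ 2 ^ (C * X + (G + 2)) := by
      apply pow_le_pow_right₀ (by norm_num)
      rw [hC]
      have : (G + 2 + G * T.card) * X = G * X + 2 * X + G * T.card * X := by ring
      rw [this]
      have : 0 ≤ G * X := Nat.zero_le _
      omega
    exact ⟨(hsz0 φ).1.trans h1, (hsz0 φ).2.trans h1⟩
  have hXs : X ≤ s ^ κ := by
    by_cases hX0 : X = 0
    · rw [hX0]; exact Nat.zero_le _
    have hXpos : 1 ≤ X := Nat.one_le_iff_ne_zero.mpr hX0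
    have hsize : ∀ φ : K →+* ℂ, ‖φ (u : K)‖ ≤ 2 ^ (C * X) ∧ ‖φ (u' : K)‖ ≤ 2 ^ (C * X) := by
      intro φ
      have h1 : (2 : ℝ) ^ (G + X + 1 + G * T.card * X) ≤ 2 ^ (C * X) := by
        apply pow_le_pow_right₀ (by norm_num)
        rw [hC]
        have : (G + 2 + G * T.card) * X = G * X + 2 * X + G * T.card * X := by ring
        rw [this]
        have : G ≤ G * X := Nat.le_mul_of_pos_right _ hXpos
        omega
      exact ⟨(hsz0 φ).1.trans h1, (hsz0 φ).2.trans h1⟩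
    have hrootu : ∀ N : ℕ, 1 ≤ N → (u : K) ^ N ≠ (u' : K) ^ N := by
      intro N hN h1
      rw [hu, hu'K, mul_pow, mul_pow] at h1
      exact hroot N hN (mul_right_cancel₀ (pow_ne_zero _ hwK0) h1)
    rcases hXm with h0 | ⟨φ, hφ⟩ | ⟨v, hvT, hvX⟩
    · exact absurd h0 hX0
    · -- archimedean
      have hs1 : s ^ κ₁ ≤ s ^ κ := Nat.pow_le_pow_right (by omega) (by omega)
      by_cases hXG : X < G + 2
      · calc X ≤ s ^ 1 := by rw [pow_one]; omega
          _ ≤ s ^ κ := Nat.pow_le_pow_right (by omega) (by omega)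
      push Not at hXG
      refine le_trans ?_ hs1
      rw [hs]
      refine harch n (by omega) X u u' Y Y' e e' hu0 hu'0 hY0 hY'0 hen he'n hreq hreq' hsize
        hrootu φ ?_
      have hφw : φ (w : K) ≠ 0 := by rwa [map_ne_zero]
      have hφx' : φ (x - (δ : K)) ≠ 0 := by rwa [map_ne_zero]
      have h1 : φ (u : K) / φ (u' : K) - 1 = φ (δ : K) / φ (x - (δ : K)) := by
        rw [hu, hu'K, map_mul, map_mul, mul_div_mul_right _ _ hφw, div_sub_one hφx']
        congr 1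
        rw [map_sub]
        ring
      rw [h1, norm_div]
      have h2 : (2 : ℝ) ^ (X - 2) ≤ ‖φ (x - (δ : K))‖ := by
        have h3 : ‖φ x‖ - ‖φ (δ : K)‖ ≤ ‖φ (x - (δ : K))‖ := by
          rw [map_sub]
          exact norm_sub_norm_le _ _
        have h4 := hGδ φ
        have h5 : (2 : ℝ) ^ G ≤ 2 ^ (X - 2) := pow_le_pow_right₀ (by norm_num) (by omega)
        have h6 : (2 : ℝ) ^ (X - 1) = 2 ^ (X - 2) + 2 ^ (X - 2) := by
          have : X - 1 = (X - 2) + 1 := by omega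
          rw [this, pow_succ]
          ring
        linarith
      calc ‖φ (δ : K)‖ / ‖φ (x - (δ : K))‖ ≤ 2 ^ G / 2 ^ (X - 2) :=
            div_le_div₀ (by positivity) (hGδ φ) (by positivity) h2
        _ = 2 ^ (G + 2) / 2 ^ X := by
            have : X = (X - 2) + 2 := by omega
            conv_rhs => rw [this, pow_add, pow_add]
            rw [mul_div_mul_right _ _ (by norm_num)]
    · -- p-adic
      have hκv : κ₂ v ≤ κ := by
        have := Finset.single_le_sum (f := κ₂) (fun _ _ => Nat.zero_le _) hvT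
        omega
      have hnv : n₂ v ≤ n := by
        have := Finset.single_le_sum (f := n₂) (fun _ _ => Nat.zero_le _) hvT
        omega
      have hs1 : s ^ κ₂ v ≤ s ^ κ := Nat.pow_le_pow_right (by omega) hκv
      refine le_trans ?_ hs1
      have hkv1 := hk1 v
      have hkv2 := hk2 v
      have hvalδ := adv_nonneg K v δ hδ
      have hvu : (adv K v).v (u : K) = -(X : ℤ) + h * k v := by
        rw [hu, (adv K v).mul' _ _ hx0 hwK0, hwval v, if_pos hvT, hvX]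
      have hvx' : (adv K v).v (x - (δ : K)) = -(X : ℤ) := by
        have h1 : (adv K v).E (-(X : ℤ)) x := ⟨hx0, hvX⟩
        have h2 : (adv K v).G 0 (-(δ : K)) := (ZV.G.neg (Or.inr hvalδ))
        have h3 := h1.addG h2 (by omega)
        rw [← sub_eq_add_neg] at h3
        exact h3.2
      have hvu' : (adv K v).v (u' : K) = -(X : ℤ) + h * k v := by
        rw [hu'K, (adv K v).mul' _ _ hx'0 hwK0, hwval v, if_pos hvT, hvx']
      rw [hvX] at hkv1 hkv2
      have hlt : -(X : ℤ) + h * k v < h := by omega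
      have hge : 0 ≤ -(X : ℤ) + h * k v := by omega
      have hnin : ∀ Z : 𝓞 K, Z ≠ 0 → (adv K v).v (Z : K) = 0 → Z ∉ v.asIdeal := by
        intro Z hZ hZv hmem
        have h1 := (le_adv_iff K v Z hZ 1).2 (by rw [pow_one]; exact hmem)
        have h2 : (adv K v).v (algebraMap (𝓞 K) K Z) = 0 := hZv
        rw [h2] at h1
        omega
      rw [hs]
      refine hpadic v n hnv (fun p r hp hpv hpr => hpp v ((hTS v).1 hvT) p r hp hpv hpr) X u u' Y
        Y' e e' hu0 hu'0 (hnin Y hY0 (hYv v hvT (by rw [hvu]; omega)))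
        (hnin Y' hY'0 (hY'v v hvT (by rw [hvu']; omega))) hen he'n ?_ hreq hreq' hsize hrootu ?_ ?_
      · rw [hγd, he, he']
        rintro (j | z) hj
        · exfalso
          exact hnin (ε j) (hε j).ne_zero (unit_val v (hε j)) hj
        · have hzv : v = z.1 := by
            by_contra hne
            exact hnin (g z.1) (RingOfIntegers.coe_ne_zero_iff.mp (hg0 z.1)) (hgn v z.1 hne) hj
          simp only [Sum.elim_inr]
          rw [← hzv, hvu, hvu']
      · have h1 : u - u' = δ * w := by rw [hu']; ring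
        rw [h1, ← le_adv_iff K v _ (mul_ne_zero hδ hw0), map_mul]
        show (X : ℤ) ≤ (adv K v).v ((δ : K) * (w : K))
        rw [(adv K v).mul' _ _ hδ0 hwK0, hwval v, if_pos hvT]
        have : 0 ≤ (adv K v).v (δ : K) := hvalδ
        omega
      · intro hmem
        have h1 := (le_adv_iff K v u' hu'0 (h + 1)).2 hmem
        have h2 : (adv K v).v (algebraMap (𝓞 K) K u') = -(X : ℤ) + h * k v := hvu'
        rw [h2] at h1
        push_cast at h1
        omega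
  -- the valuations vanish
  have hbnd : Module.finrank ℚ K * (C * X + (G + 2)) < n := by
    have h2gn : 2 ^ (s - 1) ≤ n := by
      rw [← Nat.lt_size, ← hs]
      omega
    have h1 : 4 * (Module.finrank ℚ K * (C + G + 2)) * s ^ κ ≤ 2 ^ s := hg2 s (by omega)
    have h2 : 2 ^ s = 2 * 2 ^ (s - 1) := by
      rw [← pow_succ']
      congr 1
      omega
    have hs1 : 1 ≤ s ^ κ := Nat.one_le_pow _ _ (by omega)
    have h3 : Module.finrank ℚ K * (C * X + (G + 2)) ≤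
        Module.finrank ℚ K * (C + G + 2) * s ^ κ := by
      rw [mul_assoc]
      apply Nat.mul_le_mul_left
      have h5 : (C + G + 2) * s ^ κ = C * s ^ κ + (G + 2) * s ^ κ := by ring
      rw [h5]
      exact Nat.add_le_add (Nat.mul_le_mul_left _ hXs) (Nat.le_mul_of_pos_right _ hs1)
    rw [h2] at h1
    have h4 : 4 * (Module.finrank ℚ K * (C + G + 2) * s ^ κ) ≤ 2 * 2 ^ (s - 1) := by linarith
    have h6 : 1 ≤ Module.finrank ℚ K * (C + G + 2) * s ^ κ :=
      Nat.mul_pos (Nat.mul_pos Module.finrank_pos (by omega)) hs1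
    omega
  intro v hv
  have h1 := huout v hv
  constructor
  · by_contra hne
    have := val_small hu0 _ n (fun φ => (hsz φ).1) v (by rw [h1.1]; exact (hxn v hv).1)
      (by rw [h1.1]; exact hne)
    omega
  · by_contra hne
    have := val_small hu'0 _ n (fun φ => (hsz φ).2) v (by rw [h1.2]; exact (hxn v hv).2)
      (by rw [h1.2]; exact hne)
    omega

end Run7.h197.ST
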