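import Pool.Agent.Run7.h197.BK.Weak

/-!
Two integers of a number field whose difference is fixed and which are `n`-th powers up to units
outside of a finite set: the size is bounded by a power of `log n`.
-/

set_option autoImplicit false

namespace Run7.h197.ST

open Finset NumberField Run7.h197.BK
open Pool.Agent.Y913.Bk (PolyB)

variable {K : Type} [Field K] [NumberField K]

/-- the bound for linear forms for arbitrary index types -/
theorem SB.transfer {m κ g0 : ℕ} (h : SB K m κ g0) {τ : Type} [Fintype τ]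
    (hτ : Fintype.card τ = m) (g : ℕ) (hg : g0 ≤ g) (H : ℕ) (hH : 1 ≤ H) (σ : K →+* ℂ)
    (a c : Option τ → 𝓞 K) (ℓ : Option τ → ℂ) (b : Option τ → ℤ)
    (ha0 : ∀ j, a j ≠ 0) (hc0 : ∀ j, c j ≠ 0)
    (ha : ∀ (φ : K →+* ℂ) j, ‖φ (a j : K)‖ ≤ 2 ^ (g * (j.elim H (fun _ => 1) : ℕ)))
    (hc : ∀ (φ : K →+* ℂ) j, ‖φ (c j : K)‖ ≤ 2 ^ (g * (j.elim H (fun _ => 1) : ℕ)))
    (hℓ : ∀ j, Complex.exp (ℓ j) = σ (a j : K) / σ (c j : K)) (hℓg : ∀ i : τ, ‖ℓ (some i)‖ ≤ g)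
    (hb0 : b none ≠ 0) (hbg : |b none| ≤ 2 ^ g) (hb : ∀ i : τ, |b (some i)| ≤ g * |b none|)
    (hnt : ∀ N : ℕ, 1 ≤ N → Complex.exp (N * Lam ℓ b) ≠ 1) :
    (1 / 2 : ℝ) ^ (g ^ κ * H) ≤ ‖Lam ℓ b‖ := by
  let e : Fin m ≃ τ := (Fintype.equivFinOfCardEq hτ).symm
  let E : Option (Fin m) ≃ Option τ := Equiv.optionCongr e
  have hE0 : E none = none := rfl
  have hE1 : ∀ i, E (some i) = some (e i) := fun i => rfl
  have hLam : Lam (ℓ ∘ E) (b ∘ E) = Lam ℓ b := by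
    unfold Lam
    exact Fintype.sum_equiv E _ _ (fun j => rfl)
  have hel : ∀ j, ((E j).elim H (fun _ => 1) : ℕ) = (j.elim H (fun _ => 1) : ℕ) := by
    intro j
    rcases j with _ | j
    · rfl
    · rfl
  rw [← hLam]
  apply h g hg H hH σ (a ∘ E) (c ∘ E) (ℓ ∘ E) (b ∘ E) (fun j => ha0 _) (fun j => hc0 _)
  · intro φ j
    have := ha φ (E j)
    rwa [hel] at this
  · intro φ j
    have := hc φ (E j)
    rwa [hel] at this
  · intro j; exact hℓ (E j)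
  · intro i; exact hℓg (e i)
  · exact hb0
  · exact hbg
  · intro i; exact hb (e i)
  · intro N hN
    rw [hLam]
    exact hnt N hN

/-- the size of the `n`-th root -/
lemma root_bound {h : ℕ} {J : Type} [Fintype J] (γ : J → 𝓞 K)
    (G₀ : ℕ) (c₀ : ℝ) (hc₀ : 0 < c₀) (hc₁ : c₀ ≤ 1)
    (hγ : ∀ (φ : K →+* ℂ) j, c₀ ≤ ‖φ (γ j : K)‖) (hG₀ : (c₀⁻¹) ^ Fintype.card J ≤ 2 ^ G₀)
    (n X : ℕ) (hn : 1 ≤ n) (x Y : 𝓞 K) (e : J → ℕ) (he : ∀ j, e j < n)
    (hx : (x : K) ^ h = (∏ j, (γ j : K) ^ (e j)) * (Y : K) ^ n)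
    (φ : K →+* ℂ) (hX : ‖φ (x : K)‖ ≤ 2 ^ X) :
    ‖φ (Y : K)‖ ≤ 2 ^ (G₀ + (h * X / n + 1)) := by
  have h1 : ‖φ (x : K)‖ ^ h = (∏ j, ‖φ (γ j : K)‖ ^ (e j)) * ‖φ (Y : K)‖ ^ n := by
    rw [← norm_pow, ← map_pow, hx, map_mul, map_prod, norm_mul, norm_prod, map_pow, norm_pow]
    congr 1
    apply Finset.prod_congr rfl
    intro j _
    rw [map_pow, norm_pow]
  have h2 : (c₀ ^ Fintype.card J) ^ n ≤ ∏ j, ‖φ (γ j : K)‖ ^ (e j) := by
    calc (c₀ ^ Fintype.card J) ^ n = ∏ _j : J, c₀ ^ n := by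
          rw [Finset.prod_const, Finset.card_univ, ← pow_mul, ← pow_mul, mul_comm]
      _ ≤ ∏ j, ‖φ (γ j : K)‖ ^ (e j) := by
          apply Finset.prod_le_prod (fun _ _ => by positivity)
          intro j _
          calc c₀ ^ n ≤ c₀ ^ (e j) := pow_le_pow_of_le_one hc₀.le hc₁ (he j).le
            _ ≤ ‖φ (γ j : K)‖ ^ (e j) := pow_le_pow_left₀ hc₀.le (hγ φ j) _
  have h3 : ‖φ (Y : K)‖ ^ n ≤ ((2 : ℝ) ^ (G₀ + (h * X / n + 1))) ^ n := by
    have h4 : (c₀ ^ Fintype.card J) ^ n * ‖φ (Y : K)‖ ^ n ≤ (2 ^ X) ^ h := by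
      calc (c₀ ^ Fintype.card J) ^ n * ‖φ (Y : K)‖ ^ n
          ≤ (∏ j, ‖φ (γ j : K)‖ ^ (e j)) * ‖φ (Y : K)‖ ^ n :=
            mul_le_mul_of_nonneg_right h2 (by positivity)
        _ = ‖φ (x : K)‖ ^ h := h1.symm
        _ ≤ (2 ^ X) ^ h := pow_le_pow_left₀ (norm_nonneg _) hX _
    have h5 : ‖φ (Y : K)‖ ^ n ≤ ((c₀⁻¹) ^ Fintype.card J) ^ n * (2 ^ X) ^ h := by
      have h6 : ((c₀⁻¹) ^ Fintype.card J) ^ n * (c₀ ^ Fintype.card J) ^ n = 1 := by
        rw [← mul_pow, ← mul_pow, inv_mul_cancel₀ hc₀.ne', one_pow, one_pow]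
      calc ‖φ (Y : K)‖ ^ n = ((c₀⁻¹) ^ Fintype.card J) ^ n *
            ((c₀ ^ Fintype.card J) ^ n * ‖φ (Y : K)‖ ^ n) := by rw [← mul_assoc, h6, one_mul]
        _ ≤ _ := mul_le_mul_of_nonneg_left h4 (by positivity)
    refine h5.trans ?_
    calc ((c₀⁻¹) ^ Fintype.card J) ^ n * ((2 : ℝ) ^ X) ^ h ≤ (2 ^ G₀) ^ n * (2 ^ X) ^ h := by
          apply mul_le_mul_of_nonneg_right _ (by positivity)
          exact pow_le_pow_left₀ (by positivity) hG₀ _
      _ = 2 ^ (G₀ * n + X * h) := by rw [← pow_mul, ← pow_mul, ← pow_add]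
      _ ≤ 2 ^ ((G₀ + (h * X / n + 1)) * n) := by
          apply pow_le_pow_right₀ (by norm_num)
          have h7 : h * X < (h * X / n + 1) * n := by
            rw [mul_comm (h * X / n + 1) n]
            exact Nat.lt_mul_div_succ _ (by omega)
          nlinarith
      _ = _ := by rw [pow_mul]
  exact (pow_le_pow_iff_left₀ (norm_nonneg _) (by positivity) (by omega)).mp h3

/-- the sizes of the logarithms of fixed numbers -/
lemma exists_bounds {J : Type} [Fintype J] (γ : J → 𝓞 K) (hγ0 : ∀ j, γ j ≠ 0) :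
    ∃ (G : ℕ) (c₀ : ℝ), 0 < c₀ ∧ c₀ ≤ 1 ∧ (∀ (φ : K →+* ℂ) j, c₀ ≤ ‖φ (γ j : K)‖) ∧
      (c₀⁻¹) ^ Fintype.card J ≤ 2 ^ G ∧ (∀ (φ : K →+* ℂ) j, ‖φ (γ j : K)‖ ≤ 2 ^ G) ∧
      (∀ (φ : K →+* ℂ) j, ‖Complex.log (φ (γ j : K))‖ ≤ G) := by
  classical
  have hne : ∀ (φ : K →+* ℂ) j, 0 < ‖φ (γ j : K)‖ := by
    intro φ j
    rw [norm_pos_iff, map_ne_zero]
    exact RingOfIntegers.coe_ne_zero_iff.mpr (hγ0 j)
  let I := (K →+* ℂ) × J
  let B : ℝ := 1 + ∑ i : I, (‖i.1 (γ i.2 : K)‖⁻¹ + ‖i.1 (γ i.2 : K)‖ +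
    ‖Complex.log (i.1 (γ i.2 : K))‖)
  have hterm : ∀ i : I, 0 ≤ ‖i.1 (γ i.2 : K)‖⁻¹ + ‖i.1 (γ i.2 : K)‖ +
    ‖Complex.log (i.1 (γ i.2 : K))‖ := fun i => by positivity
  have hB : ∀ i : I, ‖i.1 (γ i.2 : K)‖⁻¹ + ‖i.1 (γ i.2 : K)‖ +
      ‖Complex.log (i.1 (γ i.2 : K))‖ ≤ B := by
    intro i
    have h1 := Finset.single_le_sum (f := fun i : I => ‖i.1 (γ i.2 : K)‖⁻¹ + ‖i.1 (γ i.2 : K)‖ +
      ‖Complex.log (i.1 (γ i.2 : K))‖) (fun i _ => hterm i) (Finset.mem_univ i)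
    simp only [B]
    linarith
  have hB1 : 1 ≤ B := by
    have : 0 ≤ ∑ i : I, (‖i.1 (γ i.2 : K)‖⁻¹ + ‖i.1 (γ i.2 : K)‖ +
      ‖Complex.log (i.1 (γ i.2 : K))‖) := Finset.sum_nonneg (fun i _ => hterm i)
    simp only [B]
    linarith
  obtain ⟨G1, hG1⟩ := exists_nat_ge (B ^ Fintype.card J)
  obtain ⟨G2, hG2⟩ := exists_nat_ge B
  have hG1' : B ^ Fintype.card J ≤ 2 ^ (G1 + G2) := by
    calc B ^ Fintype.card J ≤ G1 := hG1
      _ ≤ ((2 ^ G1 : ℕ) : ℝ) := by exact_mod_cast Nat.lt_two_pow_self.le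
      _ ≤ 2 ^ (G1 + G2) := by
          push_cast
          exact pow_le_pow_right₀ (by norm_num) (by omega)
  have hG2' : B ≤ 2 ^ (G1 + G2) := by
    calc B ≤ G2 := hG2
      _ ≤ ((2 ^ G2 : ℕ) : ℝ) := by exact_mod_cast Nat.lt_two_pow_self.le
      _ ≤ 2 ^ (G1 + G2) := by
          push_cast
          exact pow_le_pow_right₀ (by norm_num) (by omega)
  refine ⟨G1 + G2, B⁻¹, by positivity, inv_le_one_of_one_le₀ hB1, ?_, ?_, ?_, ?_⟩
  · intro φ j
    have h1 := hB (φ, j)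
    dsimp only at h1
    have h2 := hne φ j
    have h3 : ‖φ (γ j : K)‖⁻¹ ≤ B := by
      have h4 := norm_nonneg (Complex.log (φ (γ j : K)))
      linarith
    rw [inv_le_comm₀ (by positivity) h2]
    exact h3
  · rw [inv_inv]
    exact hG1'
  · intro φ j
    have h1 := hB (φ, j)
    dsimp only at h1
    have h2 := inv_pos.mpr (hne φ j)
    have h4 := norm_nonneg (Complex.log (φ (γ j : K)))
    linarith
  · intro φ j
    have h1 := hB (φ, j)
    dsimp only at h1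
    have h2 := inv_pos.mpr (hne φ j)
    have h3 := hne φ j
    push_cast
    have h5 : (0 : ℝ) ≤ G1 := Nat.cast_nonneg _
    linarith

/-- **the main estimate** -/
theorem arch (h : ℕ) (hh : 1 ≤ h) {J : Type} [Fintype J] (γ : J → 𝓞 K) (hγ0 : ∀ j, γ j ≠ 0)
    (δ : 𝓞 K) :
    ∃ κ n₀ : ℕ, ∀ n, n₀ ≤ n → ∀ (x x' Y Y' : 𝓞 K) (e e' : J → ℕ), x ≠ 0 → x' ≠ 0 →
      Y ≠ 0 → Y' ≠ 0 → (∀ j, e j < n) → (∀ j, e' j < n) →
      (x : K) ^ h = (∏ j, (γ j : K) ^ (e j)) * (Y : K) ^ n →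
      (x' : K) ^ h = (∏ j, (γ j : K) ^ (e' j)) * (Y' : K) ^ n →
      x - x' = δ → (∀ N : ℕ, 1 ≤ N → (x : K) ^ N ≠ (x' : K) ^ N) →
      ∀ φ : K →+* ℂ, ‖φ (x : K)‖ ≤ 2 ^ (Nat.size n ^ κ) ∧ ‖φ (x' : K)‖ ≤ 2 ^ (Nat.size n ^ κ) := by
  classical
  obtain ⟨G, c₀, hc₀, hc₁, hγc, hG₀, hγG, hlogG⟩ := exists_bounds γ hγ0
  obtain ⟨κ, g0, hSB⟩ := SB_all K (Fintype.card J + 1)
  -- a bound for `δ`
  obtain ⟨G₃, hG₃⟩ : ∃ G₃ : ℕ, ∀ φ : K →+* ℂ, ‖φ (δ : K)‖ ≤ 2 ^ G₃ := by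
    obtain ⟨G₃, hG₃⟩ := exists_nat_ge (∑ φ : K →+* ℂ, ‖φ (δ : K)‖)
    refine ⟨G₃, fun φ => ?_⟩
    calc ‖φ (δ : K)‖ ≤ ∑ φ : K →+* ℂ, ‖φ (δ : K)‖ :=
          Finset.single_le_sum (f := fun φ : K →+* ℂ => ‖φ (δ : K)‖) (fun _ _ => norm_nonneg _)
            (Finset.mem_univ φ)
      _ ≤ G₃ := hG₃
      _ ≤ ((2 ^ G₃ : ℕ) : ℝ) := by exact_mod_cast Nat.lt_two_pow_self.le
      _ = 2 ^ G₃ := by push_cast; rfl
  obtain ⟨g2, hg2⟩ := ((PolyB.const (4 * h)).mul (PolyB.id.pow κ)).le_two_pow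
  obtain ⟨g1, hg1⟩ : ∃ g1, g1 = g0 + g2 + G + G₃ + h + Fintype.card J + 20 := ⟨_, rfl⟩
  refine ⟨κ + 2, 2 ^ g1, ?_⟩
  intro n hn x x' Y Y' e e' hx0 hx'0 hY0 hY'0 he he' hx hx' hδ hroot
  obtain ⟨g, hg⟩ : ∃ g, g = Nat.size n := ⟨_, rfl⟩
  rw [← hg]
  have hgg1 : g1 < g := by
    rw [hg, Nat.lt_size]
    exact hn
  have hn2g : n < 2 ^ g := by rw [hg]; exact Nat.lt_size_self n
  have h2gn : 2 ^ (g - 1) ≤ n := by
    rw [← Nat.lt_size, ← hg]
    omega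
  have hn1 : 1 ≤ n := le_trans Nat.one_le_two_pow hn
  have hpoly : 2 * h * g ^ κ ≤ n := by
    have h1 : 4 * h * g ^ κ ≤ 2 ^ g := hg2 g (by omega)
    have h2 : 2 ^ g = 2 * 2 ^ (g - 1) := by
      rw [← pow_succ']
      congr 1
      omega
    rw [h2] at h1
    have h3 : 2 * (2 * h * g ^ κ) ≤ 2 * 2 ^ (g - 1) := by linarith
    omega
  -- the size of `x` and `x'`
  have hex : ∃ X : ℕ, ∀ φ : K →+* ℂ, ‖φ (x : K)‖ ≤ 2 ^ X ∧ ‖φ (x' : K)‖ ≤ 2 ^ X := by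
    obtain ⟨X, hX⟩ := exists_nat_ge (∑ φ : K →+* ℂ, (‖φ (x : K)‖ + ‖φ (x' : K)‖))
    refine ⟨X, fun φ => ?_⟩
    have h1 : ‖φ (x : K)‖ + ‖φ (x' : K)‖ ≤ 2 ^ X := by
      calc ‖φ (x : K)‖ + ‖φ (x' : K)‖ ≤ ∑ φ : K →+* ℂ, (‖φ (x : K)‖ + ‖φ (x' : K)‖) :=
            Finset.single_le_sum (f := fun φ : K →+* ℂ => ‖φ (x : K)‖ + ‖φ (x' : K)‖)
              (fun _ _ => by positivity) (Finset.mem_univ φ)
        _ ≤ X := hX
        _ ≤ ((2 ^ X : ℕ) : ℝ) := by exact_mod_cast Nat.lt_two_pow_self.le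
        _ = 2 ^ X := by push_cast; rfl
    have h2 := norm_nonneg (φ (x : K))
    have h3 := norm_nonneg (φ (x' : K))
    constructor <;> linarith
  obtain ⟨X, hX, hXmin⟩ : ∃ X : ℕ, (∀ φ : K →+* ℂ, ‖φ (x : K)‖ ≤ 2 ^ X ∧ ‖φ (x' : K)‖ ≤ 2 ^ X) ∧
      ∀ X' < X, ¬ ∀ φ : K →+* ℂ, ‖φ (x : K)‖ ≤ 2 ^ X' ∧ ‖φ (x' : K)‖ ≤ 2 ^ X' :=
    ⟨Nat.find hex, Nat.find_spec hex, fun X' hX' => Nat.find_min hex hX'⟩
  suffices hmain : X ≤ g ^ (κ + 2) by
    intro φ
    have h1 : (2 : ℝ) ^ X ≤ 2 ^ (g ^ (κ + 2)) := pow_le_pow_right₀ (by norm_num) hmain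
    exact ⟨(hX φ).1.trans h1, (hX φ).2.trans h1⟩
  have hgκ : 1 ≤ g ^ κ := Nat.one_le_pow _ _ (by omega)
  have hfinal : X ≤ 2 * ((G₃ + 3 + h) + g ^ κ * (G + 1)) → X ≤ g ^ (κ + 2) := by
    intro h1
    calc X ≤ 2 * ((G₃ + 3 + h) + g ^ κ * (G + 1)) := h1
      _ ≤ 2 * (g ^ κ * g + g ^ κ * g) := by
          have h2 : G₃ + 3 + h ≤ g := by omega
          have h3 : G + 1 ≤ g := by omega
          have h4 : g ≤ g ^ κ * g := Nat.le_mul_of_pos_left _ (by omega)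
          have h5 : g ^ κ * (G + 1) ≤ g ^ κ * g := Nat.mul_le_mul_left _ h3
          omega
      _ = g ^ κ * g * 4 := by ring
      _ ≤ g ^ κ * g * g := Nat.mul_le_mul_left _ (by omega)
      _ = g ^ (κ + 2) := by ring
  by_cases hXsmall : X ≤ G₃ + 3
  · apply hfinal
    have : 0 ≤ g ^ κ * (G + 1) := Nat.zero_le _
    omega
  push Not at hXsmall
  apply hfinal
  -- the embedding
  obtain ⟨φ, hφ⟩ : ∃ φ : K →+* ℂ, (2 : ℝ) ^ (X - 2) ≤ ‖φ (x' : K)‖ := by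
    have h1 := hXmin (X - 1) (by omega)
    push Not at h1
    obtain ⟨φ, hφ⟩ := h1
    refine ⟨φ, ?_⟩
    have h2 : (2 : ℝ) ^ (X - 1) = 2 ^ (X - 2) + 2 ^ (X - 2) := by
      rw [← two_mul, ← pow_succ']
      congr 1
      omega
    have h3 : (2 : ℝ) ^ G₃ ≤ 2 ^ (X - 2) := pow_le_pow_right₀ (by norm_num) (by omega)
    by_cases h4 : ‖φ (x : K)‖ ≤ 2 ^ (X - 1)
    · have h5 := hφ h4
      have h6 : (0 : ℝ) < 2 ^ (X - 2) := by positivity
      linarith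
    · push Not at h4
      have h5 : φ (x : K) = φ (x' : K) + φ (δ : K) := by
        rw [← map_add, ← hδ]
        congr 1
        push_cast
        ring
      have h6 : ‖φ (x : K)‖ ≤ ‖φ (x' : K)‖ + ‖φ (δ : K)‖ := by
        rw [h5]
        exact norm_add_le _ _
      have h7 := hG₃ φ
      linarith
  have hφx' : φ (x' : K) ≠ 0 := by
    rw [map_ne_zero]
    exact RingOfIntegers.coe_ne_zero_iff.mpr hx'0
  have hφx : φ (x : K) ≠ 0 := by
    rw [map_ne_zero]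
    exact RingOfIntegers.coe_ne_zero_iff.mpr hx0
  have hφY : φ (Y : K) ≠ 0 := by
    rw [map_ne_zero]
    exact RingOfIntegers.coe_ne_zero_iff.mpr hY0
  have hφY' : φ (Y' : K) ≠ 0 := by
    rw [map_ne_zero]
    exact RingOfIntegers.coe_ne_zero_iff.mpr hY'0
  have hφγ : ∀ j, φ (γ j : K) ≠ 0 := by
    intro j
    rw [map_ne_zero]
    exact RingOfIntegers.coe_ne_zero_iff.mpr (hγ0 j)
  obtain ⟨u, hu⟩ : ∃ u : ℂ, u = φ (x : K) / φ (x' : K) := ⟨_, rfl⟩
  have hu0 : u ≠ 0 := by rw [hu]; exact div_ne_zero hφx hφx'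
  have hu1 : u - 1 = φ (δ : K) / φ (x' : K) := by
    rw [hu, ← hδ]
    push_cast
    rw [map_sub]
    field_simp
  have hu1n : ‖u - 1‖ ≤ 2 ^ (G₃ + 2) / 2 ^ X := by
    rw [hu1, norm_div, div_le_div_iff₀ (norm_pos_iff.mpr hφx') (by positivity)]
    have h1 : (2 : ℝ) ^ X = 2 ^ (X - 2) * 4 := by
      have h2 : X = (X - 2) + 2 := by omega
      conv_lhs => rw [h2]
      rw [pow_add]
      norm_num
    have h2 : (2 : ℝ) ^ (G₃ + 2) = 2 ^ G₃ * 4 := by rw [pow_add]; norm_num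
    have h7 := hG₃ φ
    have h8 : (0 : ℝ) ≤ 2 ^ (X - 2) := by positivity
    rw [h1, h2]
    calc ‖φ (δ : K)‖ * (2 ^ (X - 2) * 4) ≤ 2 ^ G₃ * (‖φ (x' : K)‖ * 4) := by gcongr
      _ = _ := by ring
  have hu1h : ‖u - 1‖ ≤ 1 / 2 := by
    refine hu1n.trans ?_
    rw [div_le_div_iff₀ (by positivity) (by norm_num), one_mul, ← pow_succ]
    exact pow_le_pow_right₀ (by norm_num) (by omega)
  have hlogu : ‖Complex.log u‖ ≤ 2 * ‖u - 1‖ := by
    have h1 := Complex.norm_log_one_add_half_le_self (z := u - 1) hu1h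
    rw [add_sub_cancel] at h1
    have := norm_nonneg (u - 1)
    linarith
  -- the relation of logarithms
  have hpow : u ^ h = (φ (Y : K) / φ (Y' : K)) ^ n * ∏ j, (φ (γ j : K)) ^ ((e j : ℤ) - (e' j : ℤ)) := by
    have h1 : φ (x : K) ^ h = (∏ j, φ (γ j : K) ^ (e j)) * φ (Y : K) ^ n := by
      rw [← map_pow, hx, map_mul, map_prod, map_pow]
      congr 1
      exact Finset.prod_congr rfl (fun j _ => map_pow _ _ _)
    have h2 : φ (x' : K) ^ h = (∏ j, φ (γ j : K) ^ (e' j)) * φ (Y' : K) ^ n := by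
      rw [← map_pow, hx', map_mul, map_prod, map_pow]
      congr 1
      exact Finset.prod_congr rfl (fun j _ => map_pow _ _ _)
    have h3 : ∏ j, (φ (γ j : K)) ^ ((e j : ℤ) - (e' j : ℤ)) =
        (∏ j, φ (γ j : K) ^ (e j)) / ∏ j, φ (γ j : K) ^ (e' j) := by
      rw [← Finset.prod_div_distrib]
      apply Finset.prod_congr rfl
      intro j _
      rw [zpow_sub₀ (hφγ j), zpow_natCast, zpow_natCast]
    have h4 : ∏ j, φ (γ j : K) ^ (e' j) ≠ 0 :=
      Finset.prod_ne_zero_iff.mpr (fun j _ => pow_ne_zero _ (hφγ j))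
    rw [hu, div_pow, h1, h2, h3, div_pow]
    field_simp
  obtain ⟨k, hk⟩ : ∃ k : ℤ, (n : ℂ) * Complex.log (φ (Y : K) / φ (Y' : K)) +
      ∑ j, (((e j : ℤ) - (e' j : ℤ) : ℤ) : ℂ) * Complex.log (φ (γ j : K)) =
      h * Complex.log u + k * (2 * Real.pi * Complex.I) := by
    rw [← Complex.exp_eq_exp_iff_exists_int, Complex.exp_add, Complex.exp_nat_mul,
      Complex.exp_log (div_ne_zero hφY hφY'), Complex.exp_sum, Complex.exp_nat_mul,
      Complex.exp_log hu0, hpow]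
    congr 1
    apply Finset.prod_congr rfl
    intro j _
    rw [Complex.exp_int_mul, Complex.exp_log (hφγ j)]
  -- the size of `k`
  have hkn : |k| ≤ g * |(n : ℤ)| := by
    have h1 := congrArg Complex.im hk
    have h2 : (h * Complex.log u + k * (2 * Real.pi * Complex.I)).im =
        h * (Complex.log u).im + k * (2 * Real.pi) := by
      simp
    rw [h2, Complex.add_im, Complex.im_sum] at h1
    have h3 : ((n : ℂ) * Complex.log (φ (Y : K) / φ (Y' : K))).im =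
        n * (Complex.log (φ (Y : K) / φ (Y' : K))).im := by simp
    have h4 : ∀ j, ((((e j : ℤ) - (e' j : ℤ) : ℤ) : ℂ) * Complex.log (φ (γ j : K))).im =
        (((e j : ℤ) - (e' j : ℤ) : ℤ) : ℝ) * (Complex.log (φ (γ j : K))).im := by
      intro j
      rw [Complex.mul_im, Complex.intCast_im, Complex.intCast_re]
      ring
    rw [h3, Finset.sum_congr rfl (fun j _ => h4 j)] at h1
    have hpi := Real.pi_pos
    have him : ∀ z : ℂ, |(Complex.log z).im| ≤ Real.pi := by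
      intro z
      rw [Complex.log_im]
      exact Complex.abs_arg_le_pi z
    have h5 : |(n : ℝ) * (Complex.log (φ (Y : K) / φ (Y' : K))).im| ≤ n * Real.pi := by
      rw [abs_mul, Nat.abs_cast]
      exact mul_le_mul_of_nonneg_left (him _) (Nat.cast_nonneg _)
    have h6 : |∑ j, (((e j : ℤ) - (e' j : ℤ) : ℤ) : ℝ) * (Complex.log (φ (γ j : K))).im| ≤
        Fintype.card J * (n * Real.pi) := by
      calc _ ≤ ∑ j, |(((e j : ℤ) - (e' j : ℤ) : ℤ) : ℝ) * (Complex.log (φ (γ j : K))).im| :=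
            Finset.abs_sum_le_sum_abs _ _
        _ ≤ ∑ _j : J, (n : ℝ) * Real.pi := by
            apply Finset.sum_le_sum
            intro j _
            rw [abs_mul]
            apply mul_le_mul _ (him _) (abs_nonneg _) (Nat.cast_nonneg _)
            rw [← Int.cast_abs]
            have h7 : |(e j : ℤ) - (e' j : ℤ)| ≤ n := by
              have h8 := he j
              have h9 := he' j
              rw [abs_le]
              constructor <;> omega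
            exact_mod_cast h7
        _ = _ := by rw [Finset.sum_const, Finset.card_univ, nsmul_eq_mul]
    have h7 : |(h : ℝ) * (Complex.log u).im| ≤ h * Real.pi := by
      rw [abs_mul, Nat.abs_cast]
      exact mul_le_mul_of_nonneg_left (him _) (Nat.cast_nonneg _)
    have h8 : |(k : ℝ)| * (2 * Real.pi) ≤ n * Real.pi + Fintype.card J * (n * Real.pi) +
        h * Real.pi := by
      have h9 : (k : ℝ) * (2 * Real.pi) = n * (Complex.log (φ (Y : K) / φ (Y' : K))).im +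
          (∑ j, (((e j : ℤ) - (e' j : ℤ) : ℤ) : ℝ) * (Complex.log (φ (γ j : K))).im) -
          h * (Complex.log u).im := by linarith
      have h10 : |(k : ℝ)| * (2 * Real.pi) = |(k : ℝ) * (2 * Real.pi)| := by
        rw [abs_mul, abs_of_pos (by positivity : 0 < 2 * Real.pi)]
      rw [h10, h9]
      refine (abs_sub _ _).trans ?_
      have h11 := abs_add_le (n * (Complex.log (φ (Y : K) / φ (Y' : K))).im)
        (∑ j, (((e j : ℤ) - (e' j : ℤ) : ℤ) : ℝ) * (Complex.log (φ (γ j : K))).im)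
      linarith
    have h9 : |(k : ℝ)| ≤ n + Fintype.card J * n + h := by
      have h10 : |(k : ℝ)| * Real.pi ≤ (n + Fintype.card J * n + h) * Real.pi := by
        have h11 : 0 ≤ |(k : ℝ)| * Real.pi := by positivity
        linarith
      exact le_of_mul_le_mul_right h10 hpi
    have h10 : |k| ≤ ((n + Fintype.card J * n + h : ℕ) : ℤ) := by
      rw [← Int.cast_abs] at h9
      exact_mod_cast h9
    refine h10.trans ?_
    have h11 : n + Fintype.card J * n + h ≤ g * n := by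
      have h12 : h ≤ h * n := Nat.le_mul_of_pos_right _ hn1
      have h13 : (1 + Fintype.card J + h) * n ≤ g * n := Nat.mul_le_mul_right _ (by omega)
      nlinarith
    rw [Nat.abs_cast]
    exact_mod_cast h11
  -- the linear form
  let τ := Option J
  let aa : Option τ → 𝓞 K := fun i => i.elim Y (fun i => i.elim 1 γ)
  let cc : Option τ → 𝓞 K := fun i => i.elim Y' (fun _ => 1)
  let ℓ : Option τ → ℂ := fun i => i.elim (Complex.log (φ (Y : K) / φ (Y' : K)))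
    (fun i => i.elim (2 * Real.pi * Complex.I) (fun j => Complex.log (φ (γ j : K))))
  let b : Option τ → ℤ := fun i => i.elim (n : ℤ) (fun i => i.elim (-k)
    (fun j => (e j : ℤ) - (e' j : ℤ)))
  have hLam : Lam ℓ b = h * Complex.log u := by
    unfold Lam
    rw [Fintype.sum_option, Fintype.sum_option]
    simp only [ℓ, b, Option.elim_none, Option.elim_some]
    push_cast at hk ⊢
    linear_combination hk
  have hnt : ∀ N : ℕ, 1 ≤ N → Complex.exp (N * Lam ℓ b) ≠ 1 := by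
    intro N hN hexp
    rw [hLam, Complex.exp_nat_mul, Complex.exp_nat_mul, Complex.exp_log hu0, hu, ← pow_mul,
      div_pow, div_eq_one_iff_eq (pow_ne_zero _ hφx')] at hexp
    apply hroot (h * N) (Nat.mul_pos hh hN)
    apply φ.injective
    rw [map_pow, map_pow]
    exact hexp
  obtain ⟨H, hH⟩ : ∃ H, H = G + (h * X / n + 1) := ⟨_, rfl⟩
  have hYb : ∀ ψ : K →+* ℂ, ‖ψ (Y : K)‖ ≤ 2 ^ H := fun ψ => by
    rw [hH]
    exact root_bound γ G c₀ hc₀ hc₁ hγc hG₀ n X hn1 x Y e he hx ψ (hX ψ).1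
  have hY'b : ∀ ψ : K →+* ℂ, ‖ψ (Y' : K)‖ ≤ 2 ^ H := fun ψ => by
    rw [hH]
    exact root_bound γ G c₀ hc₀ hc₁ hγc hG₀ n X hn1 x' Y' e' he' hx' ψ (hX ψ).2
  have hHg : (2 : ℝ) ^ H ≤ 2 ^ (g * H) :=
    pow_le_pow_right₀ (by norm_num) (Nat.le_mul_of_pos_left _ (by omega))
  have hone : (1 : ℝ) ≤ 2 ^ (g * 1) := one_le_pow₀ (by norm_num)
  have hone' : ∀ ψ : K →+* ℂ, ψ ((1 : 𝓞 K) : K) = 1 := fun ψ => by simp
  have hH1 : 1 ≤ H := by
    rw [hH, ← add_assoc]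
    exact Nat.le_add_left 1 _
  have hlow := SB.transfer hSB (τ := τ) (by rw [Fintype.card_option]) g (by omega) H hH1 φ
    aa cc ℓ b
    (by
      rintro (_ | _ | j)
      · exact hY0
      · exact one_ne_zero
      · exact hγ0 j)
    (by
      rintro (_ | i)
      · exact hY'0
      · exact one_ne_zero)
    (by
      rintro ψ (_ | _ | j)
      · exact (hYb ψ).trans hHg
      · show ‖ψ ((1 : 𝓞 K) : K)‖ ≤ 2 ^ (g * 1)
        rw [hone', norm_one]
        exact hone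
      · show ‖ψ (γ j : K)‖ ≤ 2 ^ (g * 1)
        exact (hγG ψ j).trans (pow_le_pow_right₀ (by norm_num) (by omega)))
    (by
      rintro ψ (_ | i)
      · exact (hY'b ψ).trans hHg
      · show ‖ψ ((1 : 𝓞 K) : K)‖ ≤ 2 ^ (g * 1)
        rw [hone', norm_one]
        exact hone)
    (by
      rintro (_ | _ | j)
      · show Complex.exp (Complex.log (φ (Y : K) / φ (Y' : K))) = φ (Y : K) / φ (Y' : K)
        exact Complex.exp_log (div_ne_zero hφY hφY')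
      · show Complex.exp (2 * Real.pi * Complex.I) = φ ((1 : 𝓞 K) : K) / φ ((1 : 𝓞 K) : K)
        rw [Complex.exp_two_pi_mul_I, hone', div_one]
      · show Complex.exp (Complex.log (φ (γ j : K))) = φ (γ j : K) / φ ((1 : 𝓞 K) : K)
        rw [hone', div_one, Complex.exp_log (hφγ j)])
    (by
      rintro (_ | j)
      · show ‖(2 * Real.pi * Complex.I : ℂ)‖ ≤ g
        rw [norm_mul, norm_mul, Complex.norm_I, mul_one, Complex.norm_real, Real.norm_eq_abs,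
          abs_of_pos Real.pi_pos, Complex.norm_ofNat]
        have h1 := Real.pi_lt_d2
        have h2 : (20 : ℝ) ≤ g := by exact_mod_cast (by omega : 20 ≤ g)
        linarith
      · show ‖Complex.log (φ (γ j : K))‖ ≤ g
        refine (hlogG φ j).trans ?_
        exact_mod_cast (by omega : G ≤ g))
    (by
      show (n : ℤ) ≠ 0
      exact_mod_cast (by omega : n ≠ 0))
    (by
      show |(n : ℤ)| ≤ 2 ^ g
      rw [Nat.abs_cast]
      exact_mod_cast hn2g.le)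
    (by
      rintro (_ | j)
      · show |-k| ≤ g * |(n : ℤ)|
        rw [abs_neg]
        exact hkn
      · show |(e j : ℤ) - (e' j : ℤ)| ≤ g * |(n : ℤ)|
        have h8 := he j
        have h9 := he' j
        have h10 : |(e j : ℤ) - (e' j : ℤ)| ≤ n := by
          rw [abs_le]
          constructor <;> omega
        rw [Nat.abs_cast]
        refine h10.trans ?_
        exact_mod_cast Nat.le_mul_of_pos_left n (by omega : 0 < g))
    hnt
  -- conclusion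
  have hup : ‖Lam ℓ b‖ ≤ 2 ^ (G₃ + 3 + h) / 2 ^ X := by
    rw [hLam, norm_mul, Complex.norm_natCast]
    have hh2 : (h : ℝ) ≤ 2 ^ h := by exact_mod_cast Nat.lt_two_pow_self.le
    calc (h : ℝ) * ‖Complex.log u‖ ≤ 2 ^ h * (2 * (2 ^ (G₃ + 2) / 2 ^ X)) := by
          have := norm_nonneg (Complex.log u)
          have h1 : ‖Complex.log u‖ ≤ 2 * (2 ^ (G₃ + 2) / 2 ^ X) := by linarith
          gcongr
      _ = 2 ^ (G₃ + 3 + h) / 2 ^ X := by
          have e9 : (2 : ℝ) ^ (G₃ + 3 + h) = 2 ^ h * 2 * 2 ^ (G₃ + 2) := by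
            rw [← pow_succ, ← pow_add]
            congr 1
            ring
          rw [e9]
          ring
  have hcomb : (2 : ℝ) ^ X ≤ 2 ^ (G₃ + 3 + h + g ^ κ * H) := by
    have h1 := hlow.trans hup
    rw [le_div_iff₀ (by positivity), one_div, inv_pow, inv_mul_le_iff₀ (by positivity),
      ← pow_add] at h1
    rw [add_comm (G₃ + 3 + h)]
    exact h1
  have hcomb' : X ≤ G₃ + 3 + h + g ^ κ * H := by
    by_contra hcon
    push Not at hcon
    have := pow_lt_pow_right₀ (by norm_num : (1 : ℝ) < 2) hcon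
    linarith
  have hhalf : 2 * (g ^ κ * (h * X / n)) ≤ X := by
    have h1 : n * (h * X / n) ≤ h * X := Nat.mul_div_le _ _
    have h2 : h * (2 * (g ^ κ * (h * X / n))) ≤ h * X := by
      calc h * (2 * (g ^ κ * (h * X / n))) = (2 * h * g ^ κ) * (h * X / n) := by ring
        _ ≤ n * (h * X / n) := Nat.mul_le_mul_right _ hpoly
        _ ≤ h * X := h1
    exact Nat.le_of_mul_le_mul_left h2 hh
  rw [hH] at hcomb'
  have h3 : g ^ κ * (G + (h * X / n + 1)) = g ^ κ * (G + 1) + g ^ κ * (h * X / n) := by ring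
  rw [h3] at hcomb'
  generalize g ^ κ * (h * X / n) = A at *
  generalize g ^ κ * (G + 1) = B at *
  omega

end Run7.h197.ST
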