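import Pool.Agent.Run7.h197.ST.Rep

/-!
Integers of a number field whose valuations outside of a finite set of primes are divisible by `n`,
with control of the valuations in the finite set.
-/

set_option autoImplicit false

namespace Run7.h197.ST

open NumberField IsDedekindDomain Finset Pool.Agent.H691R3 Pool.Agent.Y673.Loc Pool.Agent.Y673.Cnt
open Pool.Agent.Y673.Loc.ZV

variable {K : Type} [Field K] [NumberField K]

/-- valuation of a product -/
theorem v_prod {L : Type} [Field L] (w : ZV L) {ι : Type} (T : Finset ι) (f : ι → L)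
    (hf : ∀ i ∈ T, f i ≠ 0) : w.v (∏ i ∈ T, f i) = ∑ i ∈ T, w.v (f i) := by
  classical
  induction T using Finset.induction_on with
  | empty => rw [Finset.prod_empty, Finset.sum_empty, v_one]
  | insert a s ha ih =>
    rw [Finset.prod_insert ha, Finset.sum_insert ha, w.mul' _ _ (hf a (Finset.mem_insert_self a s))
      (Finset.prod_ne_zero_iff.mpr fun i hi => hf i (Finset.mem_insert_of_mem hi)),
      ih fun i hi => hf i (Finset.mem_insert_of_mem hi)]

theorem unit_val (v : HeightOneSpectrum (𝓞 K)) {e : 𝓞 K} (he : IsUnit e) :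
    (adv K v).v (e : K) = 0 := by
  obtain ⟨u, rfl⟩ := he
  show (adv K v).v (algebraMap (𝓞 K) K (u : 𝓞 K)) = 0
  have h1 : algebraMap (𝓞 K) K (u : 𝓞 K) * algebraMap (𝓞 K) K ((u⁻¹ : (𝓞 K)ˣ) : 𝓞 K) = 1 := by
    rw [← map_mul, ← Units.val_mul, mul_inv_cancel, Units.val_one, map_one]
  have h0 : algebraMap (𝓞 K) K (u : 𝓞 K) ≠ 0 :=
    left_ne_zero_of_mul (by rw [h1]; exact one_ne_zero)
  have h0' : algebraMap (𝓞 K) K ((u⁻¹ : (𝓞 K)ˣ) : 𝓞 K) ≠ 0 :=
    right_ne_zero_of_mul (by rw [h1]; exact one_ne_zero)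
  have h2 := (adv K v).mul' _ _ h0 h0'
  rw [h1, v_one] at h2
  have h3 := adv_nonneg K v ((u : 𝓞 K)) (Units.ne_zero _)
  have h4 := adv_nonneg K v (((u⁻¹ : (𝓞 K)ˣ) : 𝓞 K)) (Units.ne_zero _)
  omega

/-- **representation** -/
theorem repS (S : Finset (HeightOneSpectrum (𝓞 K))) :
    ∃ (h r : ℕ) (ε : Fin r → 𝓞 K) (g : HeightOneSpectrum (𝓞 K) → 𝓞 K), 1 ≤ h ∧
      (∀ j, IsUnit (ε j)) ∧ (∀ v, (g v : K) ≠ 0) ∧ (∀ v, (adv K v).v (g v : K) = h) ∧
      (∀ u v, u ≠ v → (adv K u).v (g v : K) = 0) ∧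
      ∀ n : ℕ, 1 ≤ n → ∀ x : 𝓞 K, x ≠ 0 → (∀ v, v ∉ S → (n : ℤ) ∣ (adv K v).v (x : K)) →
        ∃ (b : Fin r → ℕ) (Y : 𝓞 K), Y ≠ 0 ∧ (∀ j, b j < n) ∧
          (∀ v ∈ S, (adv K v).v (x : K) < n → (adv K v).v (Y : K) = 0) ∧
          (x : K) ^ h = ((∏ j, (ε j : K) ^ (b j)) * ∏ v : {v // v ∈ S},
            (g v.1 : K) ^ (((adv K v.1).v (x : K) % n).toNat)) * (Y : K) ^ n := by
  classical
  obtain ⟨h, r, C, ε, g, hh, hC, hε, hg1, hg2, -, -, -, hrep⟩ := Pool.Agent.Y496.gensC K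
  have hg0 : ∀ v, (g v : K) ≠ 0 := by
    intro v h0
    have h1 := hg1 v
    rw [h0, map_zero] at h1
    have h3 := two_le_Nv v
    have h2 : 0 < (Nv v)⁻¹ ^ h := pow_pos (inv_pos.2 (by linarith)) _
    rw [← h1] at h2
    exact lt_irrefl _ h2
  have hε0 : ∀ j, (ε j : K) ≠ 0 := by
    intro j
    exact RingOfIntegers.coe_ne_zero_iff.mpr (hε j).ne_zero
  have hgs : ∀ v, (adv K v).v (g v : K) = h := by
    intro v
    have h1 := hg1 v
    rw [fv_adv v (hg0 v), inv_pow, ← zpow_natCast, ← zpow_neg] at h1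
    have h3 := two_le_Nv v
    have h4 := zpow_right_injective₀ (by linarith : (0 : ℝ) < Nv v) (by linarith : Nv v ≠ 1) h1
    omega
  have hgn : ∀ u v, u ≠ v → (adv K u).v (g v : K) = 0 := by
    intro u v huv
    exact (fv_eq_one_iff u (hg0 v)).1 (hg2 u v huv)
  choose u hu using fun j => hε j
  refine ⟨h, r, ε, g, hh, hε, hg0, hgs, hgn, ?_⟩
  intro n hn x hx hxS
  have hx0 : (x : K) ≠ 0 := RingOfIntegers.coe_ne_zero_iff.mpr hx
  have hn0 : (n : ℤ) ≠ 0 := by exact_mod_cast (by omega : n ≠ 0)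
  have hnpos : (0 : ℤ) < n := by exact_mod_cast (by omega : 0 < n)
  let a : HeightOneSpectrum (𝓞 K) → ℤ := fun v => (adv K v).v (x : K)
  have ha0 : ∀ v, 0 ≤ a v := fun v => adv_nonneg K v x hx
  let T : Finset (HeightOneSpectrum (𝓞 K)) := S ∪ (adv_finite hx0).toFinset
  have hST : S ⊆ T := Finset.subset_union_left
  obtain ⟨b, -, hb⟩ := hrep T a (x : K) (∑ w : InfinitePlace K, |Real.log (w (x : K))| +
    ∑ v ∈ T, |(a v : ℝ)| * Real.log (Nv v)) hx0 (by
      intro v hv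
      rw [fv_eq_one_iff v hx0]
      by_contra hne
      apply hv
      apply Finset.mem_union_right
      rw [Set.Finite.mem_toFinset]
      exact hne) (by
      intro v _
      rw [fv_adv v hx0, inv_zpow']) (by
      intro w
      have h1 : |Real.log (w (x : K))| ≤ ∑ w : InfinitePlace K, |Real.log (w (x : K))| :=
        Finset.single_le_sum (f := fun w : InfinitePlace K => |Real.log (w (x : K))|)
          (fun _ _ => abs_nonneg _) (Finset.mem_univ w)
      have h2 : 0 ≤ ∑ v ∈ T, |(a v : ℝ)| * Real.log (Nv v) :=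
        Finset.sum_nonneg (fun v _ => mul_nonneg (abs_nonneg _) (log_Nv_pos v).le)
      linarith) (by
      have h2 : 0 ≤ ∑ w : InfinitePlace K, |Real.log (w (x : K))| :=
        Finset.sum_nonneg (fun _ _ => abs_nonneg _)
      linarith)
  have hmod0 : ∀ v, v ∉ S → a v % n = 0 := fun v hv => Int.emod_eq_zero_of_dvd (hxS v hv)
  refine ⟨fun j => (b j % n).toNat,
    (∏ j, ((u j ^ (b j / n) : (𝓞 K)ˣ) : 𝓞 K)) * ∏ v ∈ T, g v ^ ((a v / n).toNat), ?_, ?_, ?_, ?_⟩
  · apply mul_ne_zero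
    · exact Finset.prod_ne_zero_iff.mpr (fun j _ => Units.ne_zero _)
    · exact Finset.prod_ne_zero_iff.mpr (fun v _ => pow_ne_zero _
        (RingOfIntegers.coe_ne_zero_iff.mp (hg0 v)))
  · intro j
    have h1 := Int.emod_nonneg (b j) hn0
    have h2 := Int.emod_lt_of_pos (b j) hnpos
    simp only
    omega
  · intro v hvS hvn
    have e1 : (((∏ j, ((u j ^ (b j / n) : (𝓞 K)ˣ) : 𝓞 K)) * ∏ v ∈ T, g v ^ ((a v / n).toNat) :
        𝓞 K) : K) = (((∏ j, ((u j ^ (b j / n) : (𝓞 K)ˣ) : 𝓞 K)) : 𝓞 K) : K) *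
          ∏ v ∈ T, (g v : K) ^ ((a v / n).toNat) := by
      show algebraMap (𝓞 K) K _ = _
      rw [map_mul]
      congr 1
      rw [map_prod]
      exact Finset.prod_congr rfl fun v _ => map_pow _ _ _
    have e2 : IsUnit (∏ j, ((u j ^ (b j / n) : (𝓞 K)ˣ) : 𝓞 K)) := by
      apply IsUnit.prod_iff.mpr
      intro j _
      exact Units.isUnit _
    rw [e1, (adv K v).mul' _ _ (RingOfIntegers.coe_ne_zero_iff.mpr e2.ne_zero)
      (Finset.prod_ne_zero_iff.mpr fun v _ => pow_ne_zero _ (hg0 v)), unit_val v e2, zero_add,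
      v_prod _ _ _ (fun v _ => pow_ne_zero _ (hg0 v))]
    apply Finset.sum_eq_zero
    intro w _
    rw [((E_of_ne (w := adv K v) (hg0 w)).pow _).2]
    by_cases hwv : v = w
    · subst hwv
      have h1 : a v / n = 0 := Int.ediv_eq_zero_of_lt (ha0 v) hvn
      rw [h1]
      simp
    · rw [hgn v w hwv, mul_zero]
  · rw [hb]
    have e1 : ∏ j, (ε j : K) ^ (b j) = (∏ j, (ε j : K) ^ ((b j % n).toNat)) *
        (∏ j, (ε j : K) ^ (b j / n)) ^ n := by
      rw [← Finset.prod_pow, ← Finset.prod_mul_distrib]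
      exact Finset.prod_congr rfl (fun j _ => zpow_split' _ (hε0 j) _ n hn)
    have e2 : ∏ v ∈ T, (g v : K) ^ (a v) = (∏ v ∈ T, (g v : K) ^ ((a v % n).toNat)) *
        (∏ v ∈ T, (g v : K) ^ ((a v / n).toNat)) ^ n := by
      rw [← Finset.prod_pow, ← Finset.prod_mul_distrib]
      exact Finset.prod_congr rfl (fun v _ => zpow_split _ _ (ha0 v) n hn)
    have e3 : ∏ v ∈ T, (g v : K) ^ ((a v % n).toNat) =
        ∏ v : {v // v ∈ S}, (g v.1 : K) ^ ((a v.1 % n).toNat) := by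
      rw [← Finset.prod_subset hST]
      · exact (Finset.prod_coe_sort S (fun v => (g v : K) ^ ((a v % n).toNat))).symm
      · intro v _ hv
        rw [hmod0 v hv]
        simp
    have e4 : (((∏ j, ((u j ^ (b j / n) : (𝓞 K)ˣ) : 𝓞 K)) * ∏ v ∈ T, g v ^ ((a v / n).toNat) :
        𝓞 K) : K) = (∏ j, (ε j : K) ^ (b j / n)) * ∏ v ∈ T, (g v : K) ^ ((a v / n).toNat) := by
      show algebraMap (𝓞 K) K _ = _
      rw [map_mul, map_prod, map_prod]
      congr 1
      · apply Finset.prod_congr rfl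
        intro j _
        have h3 := congrArg (fun y : Kˣ => (y : K))
          (map_zpow (Units.map (algebraMap (𝓞 K) K : 𝓞 K →* K)) (u j) (b j / n))
        simp only [Units.coe_map, Units.val_zpow_eq_zpow_val] at h3
        rw [← hu j]
        exact h3
    rw [e1, e2, e3, e4]
    ring

end Run7.h197.ST
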